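import Pool.Agent.N384.MQ.Mod
import Pool.Agent.N193.PS.Chow

set_option autoImplicit false

/-!
Chowla-type sums, the constant terms of the linear factors are members of families of residues with small Fourier
coefficients (adapted from `Pool.Agent.N193.PS.Chow`).
-/

namespace Pool.Agent.N384.MQ

open Finset Filter
open Pool.Agent.W93.AU (Law)
open Pool.Agent.W93.LM (Nice)
open Pool.Agent.H373R2.T7 (exI)
open Pool.Agent.N625.DY (Cls ClsV val_bd)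
open Pool.Agent.R459.Shift (Good Near Weights lam)
open Pool.Agent.R459.Fams (count count_eq count_mono count_union)
open Pool.Agent.R501.CP
open Pool.Agent.N193.PS (dg lt_dg dg_le log_le_dg dg_le_log dg_large log_pos4 log_pow_ev dg_pow count_or cls_nice)

/-- one factor, one sided sums -/
theorem mq_good (κ : ℤ) (hκ : κ ≠ 0)
    (φ : ℕ → ℂ) (hφ : Nice φ) (F : ℤ → ℤ) (hF : ∀ m, (F m : ℂ) = exI φ m) (B T W U a : ℕ) :
    ∃ V N₀ : ℕ, ∀ N : ℕ, N₀ ≤ N → ∀ q : ℕ, ∀ [NeZero q], q ≤ N → (N : ℝ) ≤ q * Real.log N ^ a →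
      ∀ (ι : Type) (s : Finset ι) (y : ι → ZMod q), Flat q (1 / Real.log q ^ V) s y →
      ∀ c₀ : ℤ, |c₀| ≤ B * N → ∀ (L : ℕ) (α : Fin L → ℕ) (g : Fin L → ℕ → ℂ), Weights T (dg N) α g →
        count s (fun i => ¬ Near W (dg N) (Good F B U N (dg N) α g) (c₀ + κ * ((y i).val : ℕ))) ≤
          s.card / (dg N : ℝ) ^ U := by
  classical
  obtain ⟨V, k₀, h0⟩ := fin_form (a + 1) κ hκ (fun k p => ∃ (L : ℕ) (α : Fin L → ℕ) (g : Fin L → ℕ → ℂ), Weights T k α g ∧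
    ∃ c : ℤ, |c| ≤ B * (2 : ℤ) ^ k ∧ 1 / (k : ℝ) ^ (U + 1) <
      ∑ v ∈ range (2 ^ k), (if Near W k (Good F B (U + 1) (2 ^ k) k α g) (c + κ * (v : ℕ)) then 0 else p v)) (fun C hC => by
      obtain ⟨k₀, h1⟩ := cls_nice hC.toCls φ hφ F hF B T W (U + 1)
      refine ⟨k₀, fun k hk p hp => ?_⟩
      rintro ⟨L, α, g, hw, c, hc, hlt⟩
      exact absurd (h1 k hk p hp c hc L α g hw) (not_le.2 hlt))
  obtain ⟨N₁, hsc⟩ := scaleN a V k₀
  refine ⟨V + 1, N₁ + 4, fun N hN q _ hq1 hq2 ι s y hf c₀ hc₀ L α g hw => ?_⟩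
  rcases s.eq_empty_or_nonempty with rfl | hs
  · rw [count_eq]
    simp
  obtain ⟨hN4, hk, e1, e2, e3⟩ := hsc N q (by omega) hq1 hq2
  have hNk : N ≤ 2 ^ dg N := (lt_dg N).le
  have hd2 : (2 : ℝ) ≤ dg N := by exact_mod_cast dg_large 2 N (by omega)
  obtain ⟨Qp, hQp⟩ : ∃ Qp : ℕ → Prop, Qp = fun v => Near W (dg N) (Good F B (U + 1) (2 ^ dg N) (dg N) α g) (c₀ + κ * (v : ℕ)) :=
    ⟨_, rfl⟩
  have hMC := dis_MC (a + 1) V (dg N) q s hs y e1 e2 (hf.mono e3)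
  have hbad := h0 (dg N) hk _ hMC
  push Not at hbad
  have h2 := count_dis s hs y (dg N) e1 Qp (1 / (dg N : ℝ) ^ (U + 1)) (by
    rw [hQp]
    exact hbad L α g hw c₀ (by
      refine hc₀.trans (mul_le_mul_of_nonneg_left ?_ (Nat.cast_nonneg _))
      exact_mod_cast hNk))
  rw [count_eq]
  have h3 : (s.card : ℝ) * (1 / (dg N : ℝ) ^ (U + 1)) ≤ s.card / (dg N : ℝ) ^ U := by
    rw [mul_one_div]
    apply div_le_div_of_nonneg_left (Nat.cast_nonneg _) (by positivity)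
    exact pow_le_pow_right₀ (by linarith) (by omega)
  refine le_trans (Nat.cast_le.2 (card_le_card fun n hn => ?_)) (h2.trans h3)
  rw [mem_filter] at hn ⊢
  refine ⟨hn.1, fun hcon => hn.2 ?_⟩
  rw [hQp] at hcon
  intro y' hy l X hX
  refine (hcon y' hy l X (hX.trans (Nat.mul_le_mul_left _ hNk))).trans ?_
  rw [div_le_div_iff₀ (by positivity) (by positivity), pow_succ]
  have h4 : ((2 ^ dg N : ℕ) : ℝ) ≤ 2 * N := by exact_mod_cast dg_le N (by omega)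
  have hN0 : (0 : ℝ) ≤ N := Nat.cast_nonneg _
  calc ((2 ^ dg N : ℕ) : ℝ) * (dg N : ℝ) ^ U ≤ 2 * N * (dg N : ℝ) ^ U := mul_le_mul_of_nonneg_right h4 (by positivity)
    _ ≤ dg N * N * (dg N : ℝ) ^ U := by gcongr
    _ = N * ((dg N : ℝ) ^ U * dg N) := by ring

/-- two sided sums of the Liouville function, one constant -/
theorem mq_good2' (κ : ℤ) (hκ : κ ≠ 0)
    (B T U a : ℕ) :
    ∃ V N₀ : ℕ, ∀ N : ℕ, N₀ ≤ N → ∀ q : ℕ, ∀ [NeZero q], q ≤ N → (N : ℝ) ≤ q * Real.log N ^ a → 1 ≤ Real.log q →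
      ∀ (ι : Type) (s : Finset ι) (y : ι → ZMod q), Flat q (1 / Real.log q ^ V) s y →
      ∀ c₀ : ℤ, |c₀| ≤ B * N → ∀ (L : ℕ) (α : Fin L → ℕ) (g : Fin L → ℕ → ℂ), Weights T (dg N) α g →
        count s (fun n => ¬ Good2 B U N (dg N) α g (c₀ + κ * ((y n).val : ℕ))) ≤ s.card / (dg N : ℝ) ^ U := by
  classical
  have hn' : Nice Pool.Agent.H373R2.T7.liR := Pool.Agent.W93.LM.nice_liR
  obtain ⟨V₁, N₁, h1⟩ := mq_good κ hκ _ hn' lam Pool.Agent.R459.Shift.lam_exI (3 * B) T 0 (U + T + 1) a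
  obtain ⟨V₂, N₂, h2⟩ := mq_good ((-1) * κ) (by simpa using hκ) _ hn' lam Pool.Agent.R459.Shift.lam_exI
    (3 * B) T 0 (U + T + 1) a
  refine ⟨V₁ + V₂, N₁ + N₂ + 4, fun N hN q _ hq1 hq2 hlq ι s y hf c₀ hc₀ L α g hw => ?_⟩
  have hd3 : 3 ≤ dg N := by
    have h4 : 2 ≤ Nat.log 2 N := Nat.le_log_of_pow_le (by norm_num) (by omega)
    unfold dg
    omega
  obtain ⟨k, hk⟩ : ∃ k, k = dg N := ⟨_, rfl⟩
  rw [← hk] at hd3 hw ⊢
  have hk1 : 1 ≤ k := by omega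
  have hk0 : (0 : ℝ) < k := by exact_mod_cast hk1
  have hk3 : (3 : ℝ) ≤ k := by exact_mod_cast hd3
  have hc3 : |c₀| ≤ ((3 * B : ℕ) : ℤ) * N := by
    refine hc₀.trans ?_
    apply mul_le_mul_of_nonneg_right _ (Int.natCast_nonneg _)
    push_cast
    have : (0 : ℤ) ≤ B := Int.natCast_nonneg _
    linarith
  have hA := h1 N (by omega) q hq1 hq2 ι s y (hf.pow_mono hlq (by omega)) c₀ hc3 L α g (hk ▸ hw)
  rw [← hk] at hA
  have hB : ∀ l : Fin L, count s (fun m => ¬ (α l ≤ B * N → Good lam (3 * B) (U + 1) N k (fun _ : Fin 1 => α l)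
      (fun _ n => g l (B * N / α l + 1 - n)) (-(c₀ + κ * ((y m).val : ℕ)) - (α l * (B * N / α l + 1) : ℕ)))) ≤
      s.card / (k : ℝ) ^ (U + T + 1) := by
    intro l
    by_cases hl : α l ≤ B * N
    · have h3 := h2 N (by omega) q hq1 hq2 ι s y (hf.pow_mono hlq (by omega)) _ (cbound B N c₀ hc₀ (α l) (hw.2.1 l) hl) 1 _ _
        (weights_one (by omega) (hk ▸ hw) l (B * N / α l + 1))
      rw [← hk] at h3
      refine (count_mono fun m _ hm hcon => hm fun _ => ?_).trans h3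
      have h6 := good_mono (by omega) (show U + 1 ≤ U + T + 1 by omega) (near_self (by omega) hcon)
      have e2 : -(c₀ + κ * (((y m).val : ℕ) : ℤ)) - ((α l * (B * N / α l + 1) : ℕ) : ℤ) =
          (-1) * c₀ + -((α l * (B * N / α l + 1) : ℕ) : ℤ) + (-1) * κ * (((y m).val : ℕ) : ℤ) := by
        ring
      rw [e2]
      exact h6
    · rw [count_eq]
      have : s.filter (fun m => ¬ (α l ≤ B * N → Good lam (3 * B) (U + 1) N k (fun _ : Fin 1 => α l)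
          (fun _ n => g l (B * N / α l + 1 - n)) (-(c₀ + κ * ((y m).val : ℕ)) - (α l * (B * N / α l + 1) : ℕ)))) = ∅ := by
        apply filter_false_of_mem
        intro m _ hcon
        exact hcon fun hc => absurd hc hl
      rw [this]
      simp only [card_empty, Nat.cast_zero]
      positivity
  have h4 := count_union s (univ : Finset (Option (Fin L)))
    (fun m => ¬ Good2 B U N k α g (c₀ + κ * ((y m).val : ℕ)))
    (fun o m => match o with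
      | none => ¬ Near 0 k (Good lam (3 * B) (U + T + 1) N k α g) (c₀ + κ * ((y m).val : ℕ))
      | some l => ¬ (α l ≤ B * N → Good lam (3 * B) (U + 1) N k (fun _ : Fin 1 => α l)
        (fun _ n => g l (B * N / α l + 1 - n)) (-(c₀ + κ * ((y m).val : ℕ)) - (α l * (B * N / α l + 1) : ℕ)))) (by
    intro m _ hm
    by_contra hcon
    push Not at hcon
    apply hm
    have g1 := hcon none (mem_univ _)
    simp only [not_not] at g1
    refine good2_of B U N k hd3 α hw.2.1 g _ (good_mono (by omega) (by omega) (near_self (by omega) g1)) fun l hl => ?_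
    have g2 := hcon (some l) (mem_univ _)
    by_contra h5
    exact g2 ⟨hl, h5⟩)
  refine h4.trans ?_
  rw [Fintype.sum_option]
  have hL := hw.1
  have h5 : ∑ l : Fin L, count s (fun m => ¬ (α l ≤ B * N → Good lam (3 * B) (U + 1) N k (fun _ : Fin 1 => α l)
      (fun _ n => g l (B * N / α l + 1 - n)) (-(c₀ + κ * ((y m).val : ℕ)) - (α l * (B * N / α l + 1) : ℕ)))) ≤
      (k : ℝ) ^ T * (s.card / (k : ℝ) ^ (U + T + 1)) := by
    refine (sum_le_sum fun l _ => hB l).trans ?_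
    rw [sum_const, card_univ, Fintype.card_fin, nsmul_eq_mul]
    exact mul_le_mul_of_nonneg_right hL (by positivity)
  have h6 : (s.card : ℝ) / (k : ℝ) ^ (U + T + 1) ≤ (k : ℝ) ^ T * (s.card / (k : ℝ) ^ (U + T + 1)) := by
    have g1 : (1 : ℝ) ≤ (k : ℝ) ^ T := one_le_pow₀ (by linarith)
    have g2 : (0 : ℝ) ≤ s.card / (k : ℝ) ^ (U + T + 1) := by positivity
    nlinarith
  have h7 : (k : ℝ) ^ T * (s.card / (k : ℝ) ^ (U + T + 1)) = s.card / (k : ℝ) ^ U / k := by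
    rw [show U + T + 1 = T + (U + 1) by ring, pow_add, pow_succ]
    field_simp
  have h8 : (s.card : ℝ) / (k : ℝ) ^ U / k * 2 ≤ s.card / (k : ℝ) ^ U := by
    rw [div_mul_eq_mul_div, div_le_iff₀ hk0]
    have : (0 : ℝ) ≤ s.card / (k : ℝ) ^ U := by positivity
    nlinarith
  calc _ ≤ s.card / (k : ℝ) ^ U / k + s.card / (k : ℝ) ^ U / k := by
        rw [← h7]
        exact add_le_add (hA.trans h6) h5
    _ ≤ _ := by linarith

/-- two sided sums of the Liouville function, both signs, uniformly for several functions and for bounded coefficients -/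
theorem mq_good2 (B T U a : ℕ) :
    ∃ V N₀ : ℕ, ∀ N : ℕ, N₀ ≤ N → ∀ q : ℕ, ∀ [NeZero q], q ≤ N → (N : ℝ) ≤ q * Real.log N ^ a → 1 ≤ Real.log q →
      ∀ (ι : Type) (s : Finset ι) (y : ι → ZMod q), Flat q (1 / Real.log q ^ V) s y →
      ∀ κ : ℤ, κ ≠ 0 → |κ| ≤ B → ∀ c₀ : ℤ, |c₀| ≤ B * N → ∀ (L : ℕ) (α : Fin L → ℕ) (g g' : Fin L → ℕ → ℂ),
        Weights T (dg N) α g → Weights T (dg N) α g' →
        count s (fun n => ¬ (Good2 B U N (dg N) α g (c₀ + κ * ((y n).val : ℕ)) ∧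
          Good2 B U N (dg N) α g' (-(c₀ + κ * ((y n).val : ℕ))))) ≤ s.card / (dg N : ℝ) ^ U := by
  classical
  have h0 := fun γ : {γ : ℤ // γ ≠ 0} => mq_good2' γ.1 γ.2 B T (U + 1) a
  choose V hV using h0
  choose K hK using hV
  obtain ⟨k₀, h1⟩ := uniform_bound (Icc (-(B : ℤ)) B) (fun γ => if h : γ ≠ 0 then K ⟨γ, h⟩ else 0)
  obtain ⟨v₀, h2⟩ := uniform_bound (Icc (-(B : ℤ)) B) (fun γ => if h : γ ≠ 0 then V ⟨γ, h⟩ else 0)
  refine ⟨v₀, k₀ + 4, fun N hN q _ hq1 hq2 hlq ι s y hf κ hκ hκB c₀ hc₀ L α g g' hg hg' => ?_⟩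
  have hm := abs_le.1 hκB
  have hκ' : (-1) * κ ≠ 0 := by simpa using hκ
  have m1 : κ ∈ Icc (-(B : ℤ)) B := mem_Icc.2 hm
  have m2 : (-1) * κ ∈ Icc (-(B : ℤ)) B := mem_Icc.2 ⟨by linarith, by linarith⟩
  have e1 := h1 κ m1
  have e2 := h1 ((-1) * κ) m2
  have e3 := h2 κ m1
  have e4 := h2 ((-1) * κ) m2

  rw [dif_pos hκ] at e1 e3
  rw [dif_pos hκ'] at e2 e4
  have hd2 : (2 : ℝ) ≤ dg N := by exact_mod_cast dg_large 2 N (by omega)
  have f1 := hK ⟨κ, hκ⟩ N (by omega) q hq1 hq2 hlq ι s y (hf.pow_mono hlq e3) c₀ hc₀ L α g hg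
  have f2 := hK ⟨(-1) * κ, hκ'⟩ N (by omega) q hq1 hq2 hlq ι s y (hf.pow_mono hlq e4) ((-1) * c₀) (by
    rw [abs_mul, abs_neg, abs_one, one_mul]
    exact hc₀) L α g' hg'
  have h3 := count_or s (fun n => ¬ (Good2 B U N (dg N) α g (c₀ + κ * ((y n).val : ℕ)) ∧
          Good2 B U N (dg N) α g' (-(c₀ + κ * ((y n).val : ℕ)))))
    (fun n => ¬ Good2 B (U + 1) N (dg N) α g (c₀ + κ * ((y n).val : ℕ)))
    (fun n => ¬ Good2 B (U + 1) N (dg N) α g' ((-1) * c₀ + (-1) * κ * ((y n).val : ℕ))) (by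
    intro n _ hne
    by_contra hcon
    push Not at hcon
    apply hne
    have hd1 : 1 ≤ dg N := by unfold dg; omega
    refine ⟨good2_mono hd1 (by omega) hcon.1, ?_⟩
    have h5 := good2_mono hd1 (by omega : U ≤ U + 1) hcon.2
    convert h5 using 1
    ring)
  refine h3.trans ((add_le_add f1 f2).trans ?_)
  rw [← two_mul, ← mul_div_assoc, div_le_div_iff₀ (by positivity) (by positivity), pow_succ]
  have : (0 : ℝ) ≤ (s.card : ℝ) * (dg N : ℝ) ^ U := by positivity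
  nlinarith

/-- many linear factors, the constant terms of which are values -/
theorem mq_tuplesC (B κ U a : ℕ) :
    ∃ V N₀ : ℕ, ∀ N : ℕ, N₀ ≤ N → ∀ s L : ℕ, 2 ^ s ≤ dg N ^ κ → L ≤ dg N ^ κ → ∀ (q : Fin s → ℕ) [∀ i, NeZero (q i)],
      (∀ i, q i ≤ N) → (∀ i, (N : ℝ) ≤ q i * Real.log N ^ a) → (∀ i, 1 ≤ Real.log (q i)) →
      ∀ (τ : Type) (S : Fin s → Finset τ) (y : ∀ i, τ → ZMod (q i)), (∀ i, Flat (q i) (1 / Real.log (q i) ^ V) (S i) (y i)) →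
      ∀ c₀ γ : Fin s → ℤ, (∀ i, |c₀ i| ≤ B * N) → (∀ i, γ i ≠ 0 ∧ |γ i| ≤ B) → ∀ α : Fin s → ℕ, (∀ i, 1 ≤ α i) →
      ∀ g : Fin L → Polynomial ℤ,
      count (Fintype.piFinset S)
        (fun n => ¬ Chowla B κ U N (dg N) g α (fun i => c₀ i + γ i * ((y i (n i)).val : ℕ))) ≤
        (∏ i, ((S i).card : ℝ)) / (dg N : ℝ) ^ U := by
  classical
  obtain ⟨V, N₁, h1⟩ := mq_good2 B (4 * κ) (U + κ + 1) a
  obtain ⟨N₂, h2⟩ := dg_pow (U + 1)
  refine ⟨V, N₁ + N₂ + 4, fun N hN s L hs hL q _ hq1 hq2 hlq τ S y hf c₀ γ hc₀ hγ α hα g => ?_⟩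
  have hk3 : 3 ≤ dg N := by
    have h4 : 2 ≤ Nat.log 2 N := Nat.le_log_of_pow_le (by norm_num) (by omega)
    unfold dg
    omega
  have hkN : dg N ^ (U + 1) ≤ N := h2 N (by omega)
  have key := tuples B κ U N (dg N) (4 * κ) hk3 hkN rfl hs hL S
    (fun i n => c₀ i + γ i * ((y i n).val : ℕ)) g α hα (U + κ) rfl (by
    intro i M g g' hg hg'
    have h3 := h1 N (by omega) (q i) (hq1 i) (hq2 i) (hlq i) τ (S i) (y i) (hf i) (γ i) (hγ i).1 (hγ i).2 (c₀ i) (hc₀ i) M _ g g' hg hg'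
    have hk1 : 1 ≤ dg N := by omega
    refine (count_mono fun v _ hv hcon => hv ⟨good2_mono hk1 (by omega) hcon.1, good2_mono hk1 (by omega) hcon.2⟩).trans
      (h3.trans ?_)
    apply div_le_div_of_nonneg_left (Nat.cast_nonneg _) (by positivity)
    exact pow_le_pow_right₀ (by exact_mod_cast hk1) (by omega))
  rw [Fintype.card_piFinset] at key
  push_cast at key
  exact key

/-- several factors at all the tuples of integers near the values -/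
theorem mq_joint (φ : ℕ → ℂ) (hφ : Nice φ) (F : ℤ → ℤ) (hF : ∀ m, (F m : ℂ) = exI φ m)
    (B κ W U S a : ℕ) :
    ∃ V N₀ : ℕ, ∀ N : ℕ, N₀ ≤ N → ∀ s ≤ S, ∀ (q : Fin s → ℕ) [∀ i, NeZero (q i)],
      (∀ i, q i ≤ N) → (∀ i, (N : ℝ) ≤ q i * Real.log N ^ a) → (∀ i, 1 ≤ Real.log (q i)) →
      ∀ (τ : Type) (Ω : Fin s → Finset τ) (y : ∀ i, τ → ZMod (q i)), (∀ i, Flat (q i) (1 / Real.log (q i) ^ V) (Ω i) (y i)) →
      ∀ c₀ γ : Fin s → ℤ, (∀ i, |c₀ i| ≤ B * N) → (∀ i, γ i ≠ 0 ∧ |γ i| ≤ B) →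
      ∀ (L : ℕ) (α : Fin L → ℕ) (g : Fin L → ℕ → ℂ), Weights κ (dg N) α g →
      count (Fintype.piFinset Ω)
        (fun n => ¬ NearT W (dg N) (Joint F B U N (dg N) α g) (fun i => c₀ i + γ i * ((y i (n i)).val : ℕ))) ≤
        (∏ i, ((Ω i).card : ℝ)) / (dg N : ℝ) ^ U := by
  classical
  have h0 := fun γ : {γ : ℤ // γ ≠ 0} => mq_good γ.1 γ.2 φ hφ F hF (B + 1) (2 * κ + 2) 0
      (U + S * (W + 1) + κ + 1) a
  choose V hV using h0
  choose K hK using hV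
  obtain ⟨k₀, h1⟩ := uniform_bound (Icc (-(B : ℤ)) B) (fun γ => if h : γ ≠ 0 then K ⟨γ, h⟩ else 0)
  obtain ⟨v₀, h3⟩ := uniform_bound (Icc (-(B : ℤ)) B) (fun γ => if h : γ ≠ 0 then V ⟨γ, h⟩ else 0)
  obtain ⟨N₂, h2⟩ := dg_pow W
  refine ⟨v₀, k₀ + N₂ + 4 + 2 ^ 2 ^ S, fun N hN s hs q _ hq1 hq2 hlq τ Ω y hf c₀ γ hc₀ hγ L α g hw => ?_⟩
  have h2S : 0 < 2 ^ 2 ^ S := by positivity
  have hk3 : 3 ≤ dg N := by
    have h4 : 2 ≤ Nat.log 2 N := Nat.le_log_of_pow_le (by norm_num) (by omega)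
    unfold dg
    omega
  have hk1 : 1 ≤ dg N := by omega
  have hkW : ((dg N : ℕ) : ℤ) ^ W ≤ (N : ℤ) := by exact_mod_cast h2 N (by omega)
  have key := near_joint hφ.1 hF B κ W U S N (dg N) hk3 (dg_large _ N (by omega)) hs α g hw
    Ω (fun i n => c₀ i + γ i * ((y i n).val : ℕ)) (by
    intro i t ht M α' g' hg'
    have hm := abs_le.1 (hγ i).2
    have e1 := h1 (γ i) (mem_Icc.2 hm)
    have e4 := h3 (γ i) (mem_Icc.2 hm)

    rw [dif_pos (hγ i).1] at e1 e4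
    have h3 := hK ⟨γ i, (hγ i).1⟩ N (by omega) (q i) (hq1 i) (hq2 i) τ (Ω i) (y i) ((hf i).pow_mono (hlq i) e4) (c₀ i + t)
      (cshift (hc₀ i) ht hkW) M α' g' hg'
    refine (count_mono fun v _ hv hcon => hv ?_).trans h3
    have e3 : c₀ i + γ i * (((y i v).val : ℕ) : ℤ) + t = c₀ i + t + γ i * (((y i v).val : ℕ) : ℤ) := by ring
    rw [e3]
    exact goodB_mono hk1 (by omega) (by omega) (near_self hk1 hcon))
  rw [Fintype.card_piFinset] at key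
  push_cast at key
  exact key

end Pool.Agent.N384.MQ
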