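import Pool.Agent.N384.MQ.Main
import Pool.Agent.R459.Eq3

set_option autoImplicit false

/-!
The decay of the characteristic function of a family of residues with small Fourier coefficients.
-/

namespace Pool.Agent.N384.MQ

open Finset Filter
open Pool.Agent.H807R2.Dav (ee norm_ee ee_add)
open Pool.Agent.TH872.Mir (Far farCount)
open Pool.Agent.R459.Eq (Decays)

lemma sm_dis {ι : Type} {q : ℕ} [NeZero q] {η : ℝ} {s : Finset ι} (hs : s.Nonempty) {y : ι → ZMod q} (hf : Flat q η s y) :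
    Sm q η (fun v => (dis s y v : ℂ)) := by
  have hq1 : 1 ≤ q := Nat.pos_of_ne_zero (NeZero.ne q)
  have hs0 : (0 : ℝ) < s.card := by exact_mod_cast hs.card_pos
  have hs0' : (s.card : ℂ) ≠ 0 := by exact_mod_cast hs0.ne'
  refine ⟨hq1, ?_, fun h hh => ?_⟩
  · have h1 := dis_sum_real s y q le_rfl (fun _ => 1)
    simp only [mul_one, sum_const, nsmul_eq_mul] at h1
    rw [← Complex.ofReal_sum, h1, div_self hs0.ne']
    simp
  · rw [dis_sum s y q le_rfl (fun v => ee ((h : ℝ) * v / q))]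
    have h1 : ∑ i ∈ s, ee ((h : ℝ) * (((y i).val : ℕ) : ℝ) / q) = ∑ i ∈ s, (ZMod.stdAddChar ((h : ZMod q) * y i) : ℂ) := by
      refine sum_congr rfl fun i _ => ?_
      have e1 : (h : ZMod q) * y i = ((h * ((y i).val : ℤ) : ℤ) : ZMod q) := by
        push_cast
        rw [ZMod.natCast_zmod_val]
      rw [e1, std_ee']
      congr 1
      push_cast
      ring
    have h2 := hf (h : ZMod q) (by
      intro h0
      exact hh ((ZMod.intCast_zmod_eq_zero_iff_dvd h q).1 h0))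
    rw [h1, norm_mul, norm_div, norm_one, Complex.norm_natCast]
    calc 1 / (s.card : ℝ) * ‖∑ i ∈ s, (ZMod.stdAddChar ((h : ZMod q) * y i) : ℂ)‖ ≤
        1 / (s.card : ℝ) * (η * s.card) := mul_le_mul_of_nonneg_left h2 (by positivity)
      _ = η := by field_simp

/-- a frequency with many far places is not too close to the integers -/
lemma far_dist (k M : ℕ) (hM : 1 ≤ M) (α : ℝ) (h : M ≤ farCount 2 1 k α) : M ≤ k ∧ (2 : ℝ) ^ M ≤ 8 * (|α - round α| * 2 ^ k) := by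
  classical
  obtain ⟨S, hS⟩ : ∃ S : Finset ℕ, S = (range k).filter (fun j => Far (1 / ((2 : ℕ) : ℝ) ^ 2) (((1 : ℕ) : ℝ) * (((2 : ℕ) : ℝ) ^ j * α))) :=
    ⟨_, rfl⟩
  have hcard : M ≤ S.card := by
    rw [hS]
    unfold farCount at h
    convert h
  have hne : S.Nonempty := card_pos.1 (by omega)
  obtain ⟨j, hj⟩ : ∃ j, j = S.min' hne := ⟨_, rfl⟩
  have hjS : j ∈ S := by rw [hj]; exact min'_mem _ _
  have hsub : S ⊆ Ico j k := by
    intro i hi
    rw [mem_Ico]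
    refine ⟨by rw [hj]; exact min'_le _ _ hi, ?_⟩
    rw [hS, mem_filter, mem_range] at hi
    exact hi.1
  have hc := card_le_card hsub
  rw [Nat.card_Ico] at hc
  rw [hS, mem_filter, mem_range] at hjS
  obtain ⟨hjk, hfar⟩ := hjS
  refine ⟨by omega, ?_⟩
  have h1 := hfar (2 ^ j * round α)
  have h2 : |((1 : ℕ) : ℝ) * (((2 : ℕ) : ℝ) ^ j * α) - ((2 ^ j * round α : ℤ) : ℝ)| = 2 ^ j * |α - round α| := by
    have : ((1 : ℕ) : ℝ) * (((2 : ℕ) : ℝ) ^ j * α) - ((2 ^ j * round α : ℤ) : ℝ) = 2 ^ j * (α - round α) := by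
      push_cast
      ring
    rw [this, abs_mul, abs_of_pos (by positivity)]
  rw [h2] at h1
  have h3 : (1 : ℝ) / 4 ≤ 2 ^ j * |α - round α| := by
    refine le_trans (le_of_eq ?_) h1
    norm_num
  have h4 : (2 : ℝ) ^ (M + j) ≤ 2 ^ k := pow_le_pow_right₀ (by norm_num) (by omega)
  have h5 : 0 ≤ |α - round α| := abs_nonneg _
  rw [pow_add] at h4
  have h6 : (0 : ℝ) < 2 ^ M := by positivity
  have h7 : (0 : ℝ) < 2 ^ j := by positivity
  calc (2 : ℝ) ^ M = 2 ^ M * (4 * (1 / 4)) := by ring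
    _ ≤ 2 ^ M * (4 * (2 ^ j * |α - round α|)) := by
        apply mul_le_mul_of_nonneg_left _ h6.le
        linarith
    _ = 4 * (|α - round α| * (2 ^ M * 2 ^ j)) := by ring
    _ ≤ 4 * (|α - round α| * 2 ^ k) := by
        apply mul_le_mul_of_nonneg_left _ (by norm_num)
        exact mul_le_mul_of_nonneg_left h4 h5
    _ ≤ _ := by
        have : 0 ≤ |α - round α| * (2 : ℝ) ^ k := by positivity
        linarith

/-- the decay of the characteristic function -/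
theorem decays_fam {ι : Type} {q : ℕ} [NeZero q] (s : Finset ι) (hs : s.Nonempty) (y : ι → ZMod q) (K T : ℝ) (hK : 0 < K)
    (hf : Flat q (1 / K) s y) (hT : T ≤ q) (hTK : T * (42 + 3 * Real.log q) ≤ K) (k : ℕ) (hk : (2 : ℝ) ^ k ≤ T) (c₀ κ : ℤ) :
    Decays 2 1 5 k (1 / 2) κ s (fun _ => 1 / (s.card : ℝ)) (fun i => c₀ + κ * ((y i).val : ℕ)) := by
  have hs0 : (0 : ℝ) < s.card := by exact_mod_cast hs.card_pos
  have hq1 : 1 ≤ q := Nat.pos_of_ne_zero (NeZero.ne q)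
  have hq0 : (0 : ℝ) < q := by exact_mod_cast hq1
  have hsm := sm_dis hs hf
  refine ⟨fun _ _ => by positivity, ?_, fun θ N hfar hAN => ?_⟩
  · rw [sum_const, nsmul_eq_mul, mul_one_div, div_self hs0.ne']
  obtain ⟨α, hα⟩ : ∃ α : ℝ, α = κ * θ := ⟨_, rfl⟩
  rw [← hα] at hfar
  have hnorm : ‖∑ i ∈ s, ((1 / (s.card : ℝ) : ℝ) : ℂ) * ee (((c₀ + κ * ((y i).val : ℕ) : ℤ) : ℝ) * θ)‖ =
      ‖∑ v ∈ range q, (dis s y v : ℂ) * ee (α * v)‖ := by
    rw [dis_sum s y q le_rfl (fun v => ee (α * v))]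
    have h1 : ∀ i ∈ s, ((1 / (s.card : ℝ) : ℝ) : ℂ) * ee (((c₀ + κ * ((y i).val : ℕ) : ℤ) : ℝ) * θ) =
        ee (c₀ * θ) * ((1 / (s.card : ℂ)) * ee (α * ((y i).val : ℕ))) := by
      intro i _
      have e1 : ee (((c₀ + κ * ((y i).val : ℕ) : ℤ) : ℝ) * θ) = ee (c₀ * θ) * ee (α * ((y i).val : ℕ)) := by
        rw [← ee_add]
        congr 1
        rw [hα]
        push_cast
        ring
      rw [e1]
      push_cast
      ring
    rw [sum_congr rfl h1, ← mul_sum, norm_mul, norm_ee, one_mul, ← mul_sum]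
  rw [hnorm]
  rcases Nat.eq_zero_or_pos N with hN0 | hN0
  · rw [hN0, pow_zero]
    refine (norm_sum_le _ _).trans ?_
    have h1 : ∀ v ∈ range q, ‖(dis s y v : ℂ) * ee (α * v)‖ = dis s y v * 1 := by
      intro v _
      rw [norm_mul, norm_ee, Complex.norm_real, Real.norm_of_nonneg (dis_nonneg s y v)]
    rw [sum_congr rfl h1, dis_sum_real s y q le_rfl (fun _ => 1)]
    simp only [sum_const, nsmul_eq_mul, mul_one]
    rw [div_self hs0.ne']
  obtain ⟨hMk, hdist⟩ := far_dist k (5 * (N + 1)) (by omega) α hfar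
  obtain ⟨δ, hδ⟩ : ∃ δ, δ = |α - round α| := ⟨_, rfl⟩
  rw [← hδ] at hdist
  have hδ0 : 0 < δ := by
    rcases (abs_nonneg (α - round α)).lt_or_eq with h1 | h1
    · rw [hδ]; exact h1
    · rw [hδ, ← h1, zero_mul, mul_zero] at hdist
      have : (0 : ℝ) < 2 ^ (5 * (N + 1)) := by positivity
      linarith
  have hchar := hsm.char (by positivity) α δ hδ0 (fun m => by rw [hδ]; exact round_le α m)
  have hk0 : (0 : ℝ) < 2 ^ k := by positivity
  have hN2 : (2 : ℝ) ^ N * 2 ≤ 2 ^ (5 * N) := by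
    rw [← pow_succ]
    exact pow_le_pow_right₀ (by norm_num) (by omega)
  have h2N : (0 : ℝ) < 2 ^ N := by positivity
  have hlog : 0 ≤ Real.log (q : ℝ) := Real.log_natCast_nonneg q
  have e1 : 1 / (δ * q) ≤ 1 / 2 / (2 : ℝ) ^ N := by
    rw [div_div]
    apply one_div_le_one_div_of_le (by positivity)
    have h1 : δ * 2 ^ k ≤ δ * q := mul_le_mul_of_nonneg_left (hk.trans hT) hδ0.le
    have h2 : (2 : ℝ) ^ (5 * (N + 1)) = 2 ^ (5 * N) * 32 := by
      rw [show 5 * (N + 1) = 5 * N + 5 by ring, pow_add]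
      norm_num
    rw [h2] at hdist
    linarith
  have e2 : 1 / K * (42 + 3 * Real.log q) ≤ 1 / 2 / (2 : ℝ) ^ N := by
    have h1 : (2 : ℝ) ^ (5 * N) ≤ 2 ^ k := pow_le_pow_right₀ (by norm_num) hAN
    have h3 : (2 : ℝ) ^ N * 2 ≤ T := hN2.trans (h1.trans hk)
    have h4 : (2 : ℝ) ^ N * 2 * (42 + 3 * Real.log q) ≤ K := by
      refine le_trans ?_ hTK
      exact mul_le_mul_of_nonneg_right h3 (by linarith)
    rw [div_div, one_div, inv_mul_eq_div, div_le_div_iff₀ hK (by positivity), one_mul]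
    linarith
  calc _ ≤ 1 / (δ * q) + 1 / K * (42 + 3 * Real.log q) := hchar
    _ ≤ 1 / 2 / (2 : ℝ) ^ N + 1 / 2 / (2 : ℝ) ^ N := add_le_add e1 e2
    _ = (1 / 2) ^ N := by rw [one_div_pow]; ring

/-- the property `P` of `c₀ + κ y_i` holds for all `i ∈ s` up to a proportion of at most `τ` -/
def AlmostF {ι : Type} {q : ℕ} (s : Finset ι) (y : ι → ZMod q) (κ c₀ : ℤ) (τ : ℝ) (P : ℤ → Prop) : Prop :=
  open Classical in ((s.filter (fun i => ¬ P (c₀ + κ * ((y i).val : ℕ)))).card : ℝ) ≤ τ * s.card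

lemma AlmostF.mono {ι : Type} {q : ℕ} {s : Finset ι} {y : ι → ZMod q} {κ c₀ : ℤ} {τ : ℝ} {P Q : ℤ → Prop}
    (h : AlmostF s y κ c₀ τ P) (hPQ : ∀ n, P n → Q n) : AlmostF s y κ c₀ τ Q := by
  classical
  unfold AlmostF at h ⊢
  refine le_trans (Nat.cast_le.2 (card_le_card fun n hn => ?_)) h
  rw [mem_filter] at hn ⊢
  exact ⟨hn.1, fun hcon => hn.2 (hPQ _ hcon)⟩

lemma card_or {τ : Type} (A : Finset τ) (E E₁ E₂ : τ → Prop) [DecidablePred E] [DecidablePred E₁] [DecidablePred E₂]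
    (h : ∀ x ∈ A, E x → E₁ x ∨ E₂ x) : ((A.filter E).card : ℝ) ≤ (A.filter E₁).card + (A.filter E₂).card := by
  classical
  have h1 : A.filter E ⊆ A.filter E₁ ∪ A.filter E₂ := by
    intro x hx
    rw [mem_filter] at hx
    rw [mem_union, mem_filter, mem_filter]
    rcases h x hx.1 hx.2 with h2 | h2
    · exact Or.inl ⟨hx.1, h2⟩
    · exact Or.inr ⟨hx.1, h2⟩
  exact_mod_cast (card_le_card h1).trans (card_union_le _ _)

lemma AlmostF.and {ι : Type} {q : ℕ} {s : Finset ι} {y : ι → ZMod q} {κ c₀ : ℤ} {τ τ' : ℝ} {P Q : ℤ → Prop}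
    (h : AlmostF s y κ c₀ τ P) (h' : AlmostF s y κ c₀ τ' Q) : AlmostF s y κ c₀ (τ + τ') (fun n => P n ∧ Q n) := by
  unfold AlmostF at h h' ⊢
  rw [add_mul]
  refine (@card_or _ _ _ _ _ (fun _ => @instDecidableNot _ (Classical.propDecidable _))
    (fun _ => @instDecidableNot _ (Classical.propDecidable _))
    (fun _ => @instDecidableNot _ (Classical.propDecidable _)) fun n _ hn => ?_).trans (add_le_add h h')
  by_cases h1 : P (c₀ + κ * ((y n).val : ℕ))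
  · exact Or.inr fun h2 => hn ⟨h1, h2⟩
  · exact Or.inl h1

/-- a family modulo `q` with Fourier coefficients at most `1 / K`, `T ≤ q`, `T (42 + 3 log q) ≤ K` -/
structure Fam {ι : Type} (q : ℕ) [NeZero q] (s : Finset ι) (y : ι → ZMod q) (K T : ℝ) : Prop where
  pos : 0 < K
  flat : Flat q (1 / K) s y
  le : T ≤ q
  small : T * (42 + 3 * Real.log q) ≤ K

/-- from the decay of the characteristic function to almost all the members -/
theorem mq_pass (W X : ℕ) (hX : 2 ≤ X) {ι : Type} (q : ℕ) [NeZero q] (s : Finset ι) (y : ι → ZMod q) (K T : ℝ)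
    (hF : Fam q s y K T) (κ c₀ : ℤ) (Q : ℕ → ℤ → Prop) (τ : ℝ) (hτ : 0 ≤ τ)
    (H : ∀ (k : ℕ) (ι : Type) (Ω : Finset ι) (w : ι → ℝ) (v : ι → ℤ), Decays 2 1 5 k (1 / 2) κ Ω w v →
      ∀ E : Finset ι, E ⊆ Ω → (∀ i ∈ E, ¬ ∀ x : ℕ, X ≤ x → x ^ W ≤ 2 ^ k → Q x (v i)) → ∑ i ∈ E, w i ≤ τ) :
    AlmostF s y κ c₀ τ (fun n => ∀ x : ℕ, X ≤ x → (x : ℝ) ^ (W + 1) ≤ T → Q x n) := by
  classical
  obtain ⟨hK, hf, hT, hTK⟩ := hF
  unfold AlmostF
  have hM0 : (0 : ℝ) ≤ s.card := Nat.cast_nonneg _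
  rcases s.eq_empty_or_nonempty with hse | hs
  · rw [hse]
    simp
  by_cases hne : ∃ x : ℕ, X ≤ x ∧ (x : ℝ) ^ (W + 1) ≤ T
  swap
  · have : s.filter (fun i => ¬ ∀ x : ℕ, X ≤ x → (x : ℝ) ^ (W + 1) ≤ T → Q x (c₀ + κ * ((y i).val : ℕ))) = ∅ := by
      apply filter_false_of_mem
      intro n _ hcon
      exact hcon fun x hx hxW => absurd ⟨x, hx, hxW⟩ hne
    rw [this, card_empty, Nat.cast_zero]
    positivity
  obtain ⟨x₀, hx₀, hx₀W⟩ := hne
  have hx₀1 : (1 : ℝ) ≤ x₀ := by exact_mod_cast (by omega : 1 ≤ x₀)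
  have hT1 : (1 : ℝ) ≤ T := (one_le_pow₀ hx₀1).trans hx₀W
  obtain ⟨k, hk⟩ : ∃ k, k = Nat.log 2 ⌊T⌋₊ := ⟨_, rfl⟩
  have hfl : 1 ≤ ⌊T⌋₊ := by
    rw [Nat.one_le_floor_iff]
    linarith
  have hf0 : 0 ≤ T := by linarith
  have hk1 : (2 : ℝ) ^ k ≤ T := by
    have h1 : 2 ^ k ≤ ⌊T⌋₊ := by
      rw [hk]
      exact Nat.pow_log_le_self 2 (by omega)
    calc (2 : ℝ) ^ k ≤ (⌊T⌋₊ : ℝ) := by exact_mod_cast h1
      _ ≤ T := Nat.floor_le hf0
  have hk2 : T < 2 ^ (k + 1) := by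
    have h1 : ⌊T⌋₊ < 2 ^ (k + 1) := by
      rw [hk]
      exact Nat.lt_pow_succ_log_self (by norm_num) _
    have h2 : T < (⌊T⌋₊ : ℝ) + 1 := Nat.lt_floor_add_one _
    have h3 : (⌊T⌋₊ : ℝ) + 1 ≤ 2 ^ (k + 1) := by exact_mod_cast h1
    linarith
  have hd := decays_fam s hs y K T hK hf hT hTK k hk1 c₀ κ
  have hM1' : (0 : ℝ) < s.card := by exact_mod_cast hs.card_pos
  have h1 := H k ι s (fun _ => 1 / (s.card : ℝ)) _ hd
    (s.filter (fun i => ¬ ∀ x : ℕ, X ≤ x → (x : ℝ) ^ (W + 1) ≤ T → Q x (c₀ + κ * ((y i).val : ℕ))))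
    (filter_subset _ _) (fun n hn hcon => by
      rw [mem_filter] at hn
      apply hn.2
      intro x hx hxW
      exact hcon x hx (by
        have hx2 : (2 : ℝ) ≤ x := by exact_mod_cast (by omega : 2 ≤ x)
        have h3 : (x : ℝ) ^ W * 2 < 2 ^ k * 2 := by
          calc (x : ℝ) ^ W * 2 ≤ (x : ℝ) ^ W * x := mul_le_mul_of_nonneg_left hx2 (by positivity)
            _ = (x : ℝ) ^ (W + 1) := (pow_succ _ _).symm
            _ ≤ T := hxW
            _ < 2 ^ (k + 1) := hk2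
            _ = 2 ^ k * 2 := pow_succ _ _
        have h4 : (x : ℝ) ^ W ≤ 2 ^ k := by linarith
        exact_mod_cast h4))
  rw [sum_const, nsmul_eq_mul, mul_one_div, div_le_iff₀ hM1'] at h1
  exact h1

end Pool.Agent.N384.MQ
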