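import Pool.Agent.N384.MQ.Dec
import Pool.Agent.N193.PS.Few

set_option autoImplicit false

/-!
Few large Fourier coefficients of the members of a family of residues with small Fourier coefficients.
-/

namespace Pool.Agent.N384.MQ

open Finset Filter Topology
open Pool.Agent.H807R2.Dav (ee norm_ee ee_add)
open Pool.Agent.Results.MP_122e00_nt.SparseRandomShifts (FewLarge)
open Pool.Agent.N193.PS (sep_count rpow_large)

/-- few large Fourier coefficients -/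
theorem mq_few (κ : ℤ) (hκ : κ ≠ 0) (θ : ℝ) (hθ : 0 < θ) : ∃ N₀ : ℕ, ∀ N : ℕ, N₀ ≤ N → ∀ q : ℕ, ∀ [NeZero q], q ≤ N →
    (N : ℝ) ^ (1 - θ) ≤ q → ∀ (ι : Type) (s : Finset ι) (y : ι → ZMod q) (ρ : ℝ), s.Nonempty → (N : ℝ) ^ (-θ) ≤ ρ →
    Flat q (ρ / Real.log N ^ 2) s y → ∀ cc : ℤ,
    FewLarge (fun _ : {i // i ∈ s} => 1 / (s.card : ℝ)) (fun i => cc + κ * ((y i.1).val : ℕ)) N ρ ((N : ℝ) ^ (4 * θ)) := by
  classical
  obtain ⟨N₁, hN₁⟩ := rpow_large ((2 * |(κ : ℝ)| + 3) * 7) (2 * θ) (by positivity)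
  obtain ⟨N₂, hN₂⟩ := eventually_atTop.mp (ev_log_ge 90)
  refine ⟨N₁ + N₂ + 1, fun N hN q _ hqN hNq ι s y ρ hs hρ hf cc S hS hsep => ?_⟩
  have hN1 : (1 : ℝ) ≤ N := by exact_mod_cast (by omega : 1 ≤ N)
  have hN0 : (0 : ℝ) < N := by linarith
  have hρ0 : 0 < ρ := lt_of_lt_of_le (by positivity) hρ
  have hL := hN₂ N (by omega)
  obtain ⟨L, hLd⟩ : ∃ L, L = Real.log (N : ℝ) := ⟨_, rfl⟩
  rw [← hLd] at hL hf
  have hL0 : 0 < L := by linarith
  have hq1 : 1 ≤ q := Nat.pos_of_ne_zero (NeZero.ne q)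
  have hq0 : (0 : ℝ) < q := by exact_mod_cast hq1
  have hlq : Real.log q ≤ L := by
    rw [hLd]
    exact Real.log_le_log hq0 (by exact_mod_cast hqN)
  have hs0 : (0 : ℝ) < s.card := by exact_mod_cast hs.card_pos
  have hsm := sm_dis hs hf
  obtain ⟨δ, hδ⟩ : ∃ δ : ℝ, δ = 2 * (N : ℝ) ^ (2 * θ) / N := ⟨_, rfl⟩
  have hδ0 : 0 ≤ δ := by rw [hδ]; positivity
  have hnear : ∀ a ∈ S, 0 ≤ a ∧ a < 1 ∧ |(κ : ℝ) * a - round ((κ : ℝ) * a)| ≤ δ := by
    intro a ha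
    obtain ⟨g1, g2, h3⟩ := hS a ha
    refine ⟨g1, g2, ?_⟩
    obtain ⟨u, hu⟩ : ∃ u, u = |(κ : ℝ) * a - round ((κ : ℝ) * a)| := ⟨_, rfl⟩
    rw [← hu]
    rcases (abs_nonneg ((κ : ℝ) * a - round ((κ : ℝ) * a))).eq_or_lt with h0 | h0
    · rw [hu, ← h0]
      exact hδ0
    rw [← hu] at h0
    have hchar := hsm.char (by positivity) ((κ : ℝ) * a) u h0 (fun m => by rw [hu]; exact round_le _ m)
    have hφ : ‖Pool.Agent.Results.MP_122e00_nt.SparseRandomShifts.φ (fun _ : {i // i ∈ s} => 1 / (s.card : ℝ))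
        (fun i => cc + κ * ((y i.1).val : ℕ)) a‖ = ‖∑ v ∈ range q, (dis s y v : ℂ) * ee ((κ : ℝ) * a * v)‖ := by
      rw [dis_sum s y q le_rfl (fun v => ee ((κ : ℝ) * a * v))]
      have e1 : Pool.Agent.Results.MP_122e00_nt.SparseRandomShifts.φ (fun _ : {i // i ∈ s} => 1 / (s.card : ℝ))
          (fun i => cc + κ * ((y i.1).val : ℕ)) a =
          ∑ i ∈ s, ((1 / (s.card : ℝ) : ℝ) : ℂ) * ee (((cc + κ * ((y i).val : ℕ) : ℤ) : ℝ) * a) := by
        rw [← Finset.sum_coe_sort s (fun i => ((1 / (s.card : ℝ) : ℝ) : ℂ) * ee (((cc + κ * ((y i).val : ℕ) : ℤ) : ℝ) * a))]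
        rfl
      have e2 : ∑ i ∈ s, ((1 / (s.card : ℝ) : ℝ) : ℂ) * ee (((cc + κ * ((y i).val : ℕ) : ℤ) : ℝ) * a) =
          ee ((cc : ℝ) * a) * ((1 / (s.card : ℂ)) * ∑ i ∈ s, ee ((κ : ℝ) * a * ((y i).val : ℕ))) := by
        rw [mul_sum, mul_sum]
        apply sum_congr rfl
        intro i _
        have : (((cc + κ * ((y i).val : ℕ) : ℤ) : ℝ) * a) = (cc : ℝ) * a + ((κ : ℝ) * a) * ((y i).val : ℕ) := by
          push_cast
          ring
        rw [this, ee_add]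
        push_cast
        ring
      rw [e1, e2, norm_mul, norm_ee, one_mul]
    rw [hφ] at h3
    have h4 : ρ / L ^ 2 * (42 + 3 * Real.log q) ≤ ρ / 2 := by
      rw [div_mul_eq_mul_div, div_le_iff₀ (by positivity)]
      have h5 : 42 + 3 * Real.log q ≤ L ^ 2 / 2 := by nlinarith
      calc ρ * (42 + 3 * Real.log q) ≤ ρ * (L ^ 2 / 2) := mul_le_mul_of_nonneg_left h5 hρ0.le
        _ = ρ / 2 * L ^ 2 := by ring
    have h5 : ρ / 2 < 1 / (u * q) := by linarith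
    rw [lt_div_iff₀ (by positivity)] at h5
    -- u q < 2 / ρ ≤ 2 N ^ θ
    have h6 : u * q ≤ 2 * (N : ℝ) ^ θ := by
      have h7 : 1 ≤ ρ * (N : ℝ) ^ θ := by
        calc (1 : ℝ) = (N : ℝ) ^ (-θ) * (N : ℝ) ^ θ := by
              rw [← Real.rpow_add hN0, neg_add_cancel, Real.rpow_zero]
          _ ≤ _ := mul_le_mul_of_nonneg_right hρ (by positivity)
      have h8 : 0 ≤ u * q := by positivity
      have h9 : 0 < (N : ℝ) ^ θ := by positivity
      calc u * q = u * q * 1 := (mul_one _).symm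
        _ ≤ u * q * (ρ * (N : ℝ) ^ θ) := mul_le_mul_of_nonneg_left h7 h8
        _ = 2 * (ρ / 2 * (u * q)) * (N : ℝ) ^ θ := by ring
        _ ≤ 2 * 1 * (N : ℝ) ^ θ := by
            apply mul_le_mul_of_nonneg_right _ h9.le
            linarith
        _ = _ := by ring
    rw [hδ, le_div_iff₀ hN0]
    have h12 : u * (N : ℝ) = u * (N : ℝ) ^ (1 - θ) * (N : ℝ) ^ θ := by
      rw [mul_assoc, ← Real.rpow_add hN0]
      have : (1 : ℝ) - θ + θ = 1 := by ring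
      rw [this, Real.rpow_one]
    rw [h12]
    calc u * (N : ℝ) ^ (1 - θ) * (N : ℝ) ^ θ ≤ u * q * (N : ℝ) ^ θ := by
          apply mul_le_mul_of_nonneg_right _ (by positivity)
          exact mul_le_mul_of_nonneg_left hNq h0.le
      _ ≤ 2 * (N : ℝ) ^ θ * (N : ℝ) ^ θ := mul_le_mul_of_nonneg_right h6 (by positivity)
      _ = 2 * (N : ℝ) ^ (2 * θ) := by
          rw [mul_assoc, ← Real.rpow_add hN0]
          congr 2
          ring
  have hcount := sep_count κ hκ N (by omega) δ hδ0 S hnear hsep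
  refine hcount.trans ?_
  have e1 : (N : ℝ) * δ = 2 * (N : ℝ) ^ (2 * θ) := by
    rw [hδ]
    field_simp
  rw [e1]
  have h1 : 1 ≤ (N : ℝ) ^ (2 * θ) := Real.one_le_rpow hN1 (by positivity)
  calc (2 * |(κ : ℝ)| + 3) * (2 * (2 * (N : ℝ) ^ (2 * θ)) + 3)
      ≤ (2 * |(κ : ℝ)| + 3) * (7 * (N : ℝ) ^ (2 * θ)) := by
        apply mul_le_mul_of_nonneg_left _ (by positivity)
        linarith
    _ = ((2 * |(κ : ℝ)| + 3) * 7) * (N : ℝ) ^ (2 * θ) := by ring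
    _ ≤ (N : ℝ) ^ (2 * θ) * (N : ℝ) ^ (2 * θ) := mul_le_mul_of_nonneg_right (hN₁ N (by omega)) (by positivity)
    _ = (N : ℝ) ^ (4 * θ) := by
        rw [← Real.rpow_add hN0]
        congr 1
        ring

end Pool.Agent.N384.MQ
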