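import Pool.Agent.N384.MQ.Fed
import Pool.Agent.N193.PS.Pe3

set_option autoImplicit false

/-!
Families of residues with small Fourier coefficients are uniformly distributed in residue classes with a power saving;
functions of residues at consecutive primes.
-/

namespace Pool.Agent.N384.MQ

open Finset Filter Topology
open Pool.Agent.H807R2.Dav (ee norm_ee ee_add)
open Pool.Agent.TH869.EVF (Per)
open Pool.Agent.TH869.SQ (per_mod ind ind1 mean pr lam)
open Pool.Agent.N193.PS (frac_dist)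

/-- power-saving uniform distribution of a family in residue classes -/
theorem fam_fed {ι : Type} {q : ℕ} [NeZero q] {s : Finset ι} {y : ι → ZMod q} {K Z : ℝ} (hF : Fam q s y K Z) (hZ1 : 1 ≤ Z)
    (hs : s.Nonempty) : FED s (fun i => (y i).val) ⌊Z⌋₊ (1 / 2) (1 / 2) 4 := by
  classical
  obtain ⟨hK, hf, hT, hTK⟩ := hF
  refine ⟨by norm_num, ?_⟩
  intro M hM hMN F hF hF1 hsum
  obtain ⟨N, hN⟩ : ∃ N, N = ⌊Z⌋₊ := ⟨_, rfl⟩
  rw [← hN] at hMN ⊢
  have hNle : 1 ≤ N := by
    rw [hN, Nat.one_le_floor_iff]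
    exact hZ1
  have hNZ : (N : ℝ) ≤ Z := by
    rw [hN]
    exact Nat.floor_le (by linarith)
  have hN1 : (1 : ℝ) ≤ N := by exact_mod_cast hNle
  have hN0 : (0 : ℝ) < N := by linarith
  have hM1 : (1 : ℝ) ≤ M := by exact_mod_cast hM
  have hM0 : (0 : ℝ) < M := by linarith
  have hs0 : (0 : ℝ) < s.card := by exact_mod_cast hs.card_pos
  have hq1 : 1 ≤ q := Nat.pos_of_ne_zero (NeZero.ne q)
  have hq0 : (0 : ℝ) < q := by exact_mod_cast hq1
  have hZ0 : 0 < Z := by linarith
  -- the function on the integers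
  obtain ⟨g, hg⟩ : ∃ g : ℤ → ℝ, g = fun z => F (z % (M : ℤ)).toNat := ⟨_, rfl⟩
  have hgper : Pool.Agent.R459.Eq.Per M g := by
    intro m n hmn
    rw [hg]
    simp only
    have : m % (M : ℤ) = n % (M : ℤ) := (Int.emod_emod_of_dvd m (dvd_refl _)).symm.trans (by
      rw [Int.emod_emod_of_dvd m (dvd_refl _)]
      exact Int.emod_eq_emod_iff_emod_sub_eq_zero.2 (Int.emod_eq_zero_of_dvd hmn))
    rw [this]
  have hgF : ∀ v : ℕ, g (v : ℤ) = F v := by
    intro v
    rw [hg]
    simp only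
    rw [← Int.natCast_mod, Int.toNat_natCast]
    exact per_mod hF v
  have hg1 : ∀ n, |g n| ≤ 1 := by
    intro n
    rw [hg]
    exact hF1 _
  have hmean : Pool.Agent.R459.Eq.mean M g = 0 := by
    unfold Pool.Agent.R459.Eq.mean
    have : ∑ t ∈ range M, g (t : ℤ) = 0 := by
      rw [← hsum]
      exact sum_congr rfl fun t _ => hgF t
    rw [this, zero_div]
  have hsm := sm_dis hs hf
  -- the exponential sums
  have hexp : ∀ a ∈ Ico 1 M, ‖∑ i ∈ s, ee ((a : ℝ) * ((((y i).val : ℕ) : ℤ) : ℝ) / M)‖ ≤ s.card * (2 * M / Z) := by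
    intro a ha
    have hd := frac_dist a M ha
    have hchar := hsm.char (by positivity) ((a : ℝ) / M) (1 / (M : ℝ)) (by positivity) (fun m => hd.trans (round_le _ m))
    have e : ∑ v ∈ range q, (dis s y v : ℂ) * ee ((a : ℝ) / M * v) =
        (1 / (s.card : ℂ)) * ∑ i ∈ s, ee ((a : ℝ) * ((((y i).val : ℕ) : ℤ) : ℝ) / M) := by
      rw [dis_sum s y q le_rfl (fun v => ee ((a : ℝ) / M * v))]
      congr 1
      apply sum_congr rfl
      intro i _
      congr 1
      push_cast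
      ring
    rw [e, norm_mul, norm_div, norm_one, Complex.norm_natCast, one_div_mul_eq_div, div_le_iff₀ hs0] at hchar
    refine hchar.trans ?_
    rw [mul_comm]
    apply mul_le_mul_of_nonneg_left _ hs0.le
    have h1 : 1 / (1 / (M : ℝ) * q) ≤ M / Z := by
      rw [one_div_mul_eq_div, one_div_div]
      exact div_le_div_of_nonneg_left hM0.le hZ0 hT
    have h2 : 1 / K * (42 + 3 * Real.log q) ≤ M / Z := by
      have h3 : 1 / K * (42 + 3 * Real.log q) ≤ 1 / Z := by
        rw [one_div_mul_eq_div, div_le_div_iff₀ hK hZ0]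
        linarith
      exact h3.trans (div_le_div_of_nonneg_right hM1 hZ0.le)
    calc _ ≤ M / Z + M / Z := add_le_add h1 h2
      _ = 2 * M / Z := by ring
  have hbody : |∑ i ∈ s, F (y i).val| ≤ M * (s.card * (2 * M / Z)) := by
    have e1 : ((∑ i ∈ s, F (y i).val : ℝ) : ℂ) =
        ∑ a ∈ Ico 1 M, Pool.Agent.R459.Eq.co M g a * ∑ i ∈ s, ee ((a : ℝ) * ((((y i).val : ℕ) : ℤ) : ℝ) / M) := by
      rw [Complex.ofReal_sum]
      have h1 : ∀ i ∈ s, ((F (y i).val : ℝ) : ℂ) =
          ∑ a ∈ Ico 1 M, Pool.Agent.R459.Eq.co M g a * ee ((a : ℝ) * ((((y i).val : ℕ) : ℤ) : ℝ) / M) := by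
        intro i _
        have h2 := Pool.Agent.R459.Eq.centered M hM g hgper (((y i).val : ℕ) : ℤ)
        rw [hmean, sub_zero, hgF] at h2
        rw [h2]
        apply sum_congr rfl
        intro a _
        congr 2
        ring
      rw [sum_congr rfl h1, sum_comm]
      apply sum_congr rfl
      intro a _
      rw [mul_sum]
    rw [← Real.norm_eq_abs, ← Complex.norm_real, e1]
    refine (norm_sum_le _ _).trans ?_
    calc ∑ a ∈ Ico 1 M, ‖Pool.Agent.R459.Eq.co M g a * ∑ i ∈ s, ee ((a : ℝ) * ((((y i).val : ℕ) : ℤ) : ℝ) / M)‖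
        ≤ ∑ a ∈ Ico 1 M, s.card * (2 * M / Z) := by
          apply sum_le_sum
          intro a ha
          rw [norm_mul]
          calc _ ≤ 1 * (s.card * (2 * M / Z)) :=
                mul_le_mul (Pool.Agent.R459.Eq.norm_co M hM g hg1 a) (hexp a ha) (norm_nonneg _) zero_le_one
            _ = _ := one_mul _
      _ = ((M - 1 : ℕ) : ℝ) * (s.card * (2 * M / Z)) := by rw [sum_const, Nat.card_Ico, nsmul_eq_mul]
      _ ≤ _ := by
          apply mul_le_mul_of_nonneg_right _ (by positivity)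
          exact_mod_cast Nat.sub_le _ _
  have e2 : (1 : ℝ) - 1 / 2 = 1 / 2 := by norm_num
  rw [e2]
  unfold om
  calc ((N : ℝ) + 1) / s.card * |∑ i ∈ s, F (y i).val| ≤ ((N : ℝ) + 1) / s.card * (M * (s.card * (2 * M / Z))) :=
        mul_le_mul_of_nonneg_left hbody (by positivity)
    _ = M * (2 * M * (((N : ℝ) + 1) / Z)) := by field_simp
    _ ≤ M * (2 * M * 2) := by
        apply mul_le_mul_of_nonneg_left _ hM0.le
        apply mul_le_mul_of_nonneg_left _ (by positivity)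
        rw [div_le_iff₀ hZ0]
        linarith
    _ = M * (4 * M) := by ring
    _ ≤ M * (4 * (N : ℝ) ^ (1 / 2 : ℝ)) := by
        apply mul_le_mul_of_nonneg_left _ hM0.le
        exact mul_le_mul_of_nonneg_left hMN (by norm_num)

open Classical in
/-- functions of the members of a family at consecutive primes -/
theorem mq_consec (m : ℕ) (hm : 1 ≤ m) (δ : ℝ) (hδ : 0 < δ) :
    ∃ θ C : ℝ, 0 < θ ∧ θ ≤ 1 ∧ 1 ≤ C ∧ ∀ x : ℕ → ℕ → ℝ, (∀ p n, x p (n + p) = x p n) →
      ∀ (ι : Type) (q : ℕ) [NeZero q] (s : Finset ι) (y : ι → ZMod q) (K₀ Z : ℝ), Fam q s y K₀ Z → 0 < Z →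
        ((s.filter (fun i => ¬ ∀ K : ℕ, (K : ℝ) ≤ Z ^ θ →
          ∀ I : Fin m → Set ℝ, (∀ i, (I i).OrdConnected) →
          |∑ k ∈ range K, (ind I (fun i' => x (pr (k + i')) (y i).val) -
            ∏ i' : Fin m, mean (pr (k + i')) (fun t => ind1 (I i') (x (pr (k + i')) t)))| ≤
            C * ((K : ℝ) ^ (1 / 2 + δ) * √(1 + Real.log Z)))).card : ℝ) ≤ C * Z ^ (-θ) * s.card := by
  obtain ⟨κ, C, h1, h2, h3, H⟩ := consecutive3 (1 / 2) (1 / 2) 4 (by norm_num) (by norm_num) (by norm_num) (by norm_num)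
    (by norm_num) m hm δ hδ
  refine ⟨κ / 2, 4 * C, by positivity, by linarith, by linarith, fun x hx ι q _ s y K₀ Z hF hZ0 => ?_⟩
  have hs0 : (0 : ℝ) ≤ s.card := Nat.cast_nonneg _
  rcases s.eq_empty_or_nonempty with hse | hs
  · rw [hse]
    simp
  by_cases hZ2 : Z < 2
  · have ht : 1 ≤ 4 * C * Z ^ (-(κ / 2)) := by
      have h4 : (1 : ℝ) / 2 ≤ Z ^ (-(κ / 2)) := by
        rcases le_total Z 1 with h5 | h5
        · have := Real.one_le_rpow_of_pos_of_le_one_of_nonpos hZ0 h5 (by linarith : -(κ / 2) ≤ 0)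
          linarith
        · rw [Real.rpow_neg hZ0.le, ← one_div]
          apply one_div_le_one_div_of_le (by positivity)
          calc Z ^ (κ / 2) ≤ Z ^ (1 : ℝ) := Real.rpow_le_rpow_of_exponent_le h5 (by linarith)
            _ ≤ 2 := by rw [Real.rpow_one]; exact hZ2.le
      nlinarith
    refine le_trans (Nat.cast_le.2 (card_le_card (filter_subset _ _))) ?_
    exact le_mul_of_one_le_left hs0 ht
  push Not at hZ2
  have hZ1 : 1 ≤ Z := by linarith
  have hfed := fam_fed hF hZ1 hs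
  obtain ⟨N, hN⟩ : ∃ N, N = ⌊Z⌋₊ := ⟨_, rfl⟩
  rw [← hN] at hfed
  have hN2 : 2 ≤ N := by
    rw [hN]
    exact Nat.le_floor (by exact_mod_cast hZ2)
  have hNZ : (N : ℝ) ≤ Z := by
    rw [hN]
    exact Nat.floor_le (by linarith)
  have hZN : Z < (N : ℝ) + 1 := by
    rw [hN]
    exact Nat.lt_floor_add_one _
  have hN2r : (2 : ℝ) ≤ N := by exact_mod_cast hN2
  have hN0 : (0 : ℝ) < N := by linarith
  obtain ⟨E, hE1, hE2⟩ := H ι s _ N hfed x hx (by omega)
  have hs1 : (0 : ℝ) < s.card := by exact_mod_cast hs.card_pos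
  have hEc : (E.card : ℝ) ≤ 4 * C * Z ^ (-(κ / 2)) * s.card := by
    unfold om at hE1
    rw [div_mul_eq_mul_div, div_le_iff₀ hs1] at hE1
    have h4 : (N : ℝ) ^ (1 - κ) ≤ ((N : ℝ) + 1) * (2 * Z ^ (-(κ / 2))) := by
      have h5 : (N : ℝ) ^ (1 - κ) = N * (N : ℝ) ^ (-κ) := by
        rw [show (1 : ℝ) - κ = 1 + -κ by ring, Real.rpow_add hN0, Real.rpow_one]
      have h6 : (N : ℝ) ^ (-κ) ≤ 2 * Z ^ (-(κ / 2)) := by
        calc (N : ℝ) ^ (-κ) ≤ (Z / 2) ^ (-κ) := Real.rpow_le_rpow_of_nonpos (by positivity) (by linarith) (by linarith)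
          _ = 2 ^ κ * Z ^ (-κ) := by
              rw [Real.div_rpow hZ0.le (by norm_num), Real.rpow_neg (by norm_num : (0 : ℝ) ≤ 2)]
              field_simp
          _ ≤ 2 * Z ^ (-(κ / 2)) := by
              apply mul_le_mul _ (Real.rpow_le_rpow_of_exponent_le hZ1 (by linarith)) (by positivity) (by norm_num)
              calc (2 : ℝ) ^ κ ≤ 2 ^ (1 : ℝ) := Real.rpow_le_rpow_of_exponent_le (by norm_num) h2
                _ = 2 := by norm_num
      rw [h5]
      exact mul_le_mul (by linarith) h6 (by positivity) (by positivity)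
    have h7 : C * (N : ℝ) ^ (1 - κ) * s.card ≤ C * (((N : ℝ) + 1) * (2 * Z ^ (-(κ / 2)))) * s.card := by
      apply mul_le_mul_of_nonneg_right _ hs0
      exact mul_le_mul_of_nonneg_left h4 (by linarith)
    have h8 : ((N : ℝ) + 1) * E.card ≤ ((N : ℝ) + 1) * (2 * C * Z ^ (-(κ / 2)) * s.card) := by
      refine (hE1.trans h7).trans (le_of_eq ?_)
      ring
    have h9 := le_of_mul_le_mul_left h8 (by positivity)
    have h10 : 0 ≤ 2 * C * Z ^ (-(κ / 2)) * s.card := by positivity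
    linarith
  refine le_trans (Nat.cast_le.2 (card_le_card fun i hi => ?_)) hEc
  rw [mem_filter] at hi
  by_contra hnE
  apply hi.2
  intro K hK I hI
  have hKN : (K : ℝ) ≤ (N : ℝ) ^ κ := by
    refine hK.trans ?_
    calc Z ^ (κ / 2) ≤ ((N : ℝ) ^ (2 : ℝ)) ^ (κ / 2) := by
          apply Real.rpow_le_rpow hZ0.le _ (by positivity)
          rw [Real.rpow_two]
          nlinarith
      _ = (N : ℝ) ^ κ := by
          rw [← Real.rpow_mul hN0.le]
          congr 1
          ring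
  have h4 := hE2 i hi.1 hnE K hKN I hI
  refine h4.trans ?_
  unfold lam
  have h5 : √(1 + Real.log N) ≤ √(1 + Real.log Z) := by
    apply Real.sqrt_le_sqrt
    have := Real.log_le_log hN0 hNZ
    linarith
  have h6 : C * ((K : ℝ) ^ (1 / 2 + δ) * √(1 + Real.log N)) ≤ C * ((K : ℝ) ^ (1 / 2 + δ) * √(1 + Real.log Z)) := by
    apply mul_le_mul_of_nonneg_left _ (by linarith)
    exact mul_le_mul_of_nonneg_left h5 (by positivity)
  have h7 : 0 ≤ C * ((K : ℝ) ^ (1 / 2 + δ) * √(1 + Real.log Z)) := by positivity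
  linarith

end Pool.Agent.N384.MQ
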