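import Pool.Agent.N384.MQ.Ex
import Pool.Agent.N384.MQ.Quot

set_option autoImplicit false

/-!
Examples of families of residues with small Fourier coefficients: arbitrary savings.
-/

namespace Pool.Agent.N384.MQ

open Finset Filter Polynomial

/-- values of polynomials -/
theorem flatK_poly (d : ℕ) (hd : 1 ≤ d) : ∃ C : ℕ, ∀ p : ℕ, ∀ [Fact p.Prime] (f : ℤ[X]), f.natDegree = d →
    ¬ (p : ℤ) ∣ f.leadingCoeff → ∀ K : ℝ, 1 ≤ K → C * K ^ C ≤ p → ∀ x : ℕ, C * K ^ C * p ≤ (x : ℝ) ^ d →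
    Flat p (1 / K) (range x) (fun n => ((f.eval (n : ℤ) : ℤ) : ZMod p)) := by
  obtain ⟨c, m, hc, hI⟩ := Pool.Agent.H373R2.NB.IW_all d hd
  refine ⟨c + m + d + 3, fun p _ f hf hlc K hK hp x hx => ?_⟩
  have hpp : p.Prime := Fact.out
  have hp0 : (0 : ℝ) < p := by exact_mod_cast hpp.pos
  have hc1 : (1 : ℝ) ≤ c := by exact_mod_cast hc
  have hK0 : 0 < K := by linarith
  have hcK : (c : ℝ) * K ^ m < ((c + m + d + 3 : ℕ) : ℝ) * K ^ (c + m + d + 3) := by
    have h1 : K ^ m ≤ K ^ (c + m + d + 3) := pow_le_pow_right₀ hK (by omega)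
    have h2 : (c : ℝ) < ((c + m + d + 3 : ℕ) : ℝ) := by exact_mod_cast (by omega : c < c + m + d + 3)
    have h3 : 0 < K ^ m := by positivity
    calc (c : ℝ) * K ^ m < ((c + m + d + 3 : ℕ) : ℝ) * K ^ m := mul_lt_mul_of_pos_right h2 h3
      _ ≤ _ := mul_le_mul_of_nonneg_left h1 (Nat.cast_nonneg _)
  have hdp : d + 2 < p := by
    have h1 : ((c + m + d + 3 : ℕ) : ℝ) ≤ p := by
      refine le_trans ?_ hp
      exact le_mul_of_one_le_right (Nat.cast_nonneg _) (one_le_pow₀ hK)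
    have h2 : c + m + d + 3 ≤ p := by exact_mod_cast h1
    omega
  have hx1 : 1 ≤ x := by
    by_contra hcon
    have hx0 : x = 0 := by omega
    rw [hx0, Nat.cast_zero, zero_pow (by omega)] at hx
    have : 0 < ((c + m + d + 3 : ℕ) : ℝ) * K ^ (c + m + d + 3) * p := by
      have : (0 : ℝ) < ((c + m + d + 3 : ℕ) : ℝ) := by exact_mod_cast (by omega : 0 < c + m + d + 3)
      positivity
    linarith
  have hx0 : (0 : ℝ) < x := by exact_mod_cast hx1
  intro h hh
  by_contra hcon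
  push Not at hcon
  rw [card_range] at hcon
  have hsum : ∑ n ∈ range x, (ZMod.stdAddChar (h * ((f.eval (n : ℤ) : ℤ) : ZMod p)) : ℂ) =
      ∑ n ∈ range x, Pool.Agent.Helper602.MK.ee ((fun n : ℕ => (h.val : ℝ) / p * ((f.eval (n : ℤ) : ℤ) : ℝ)) n) := by
    refine sum_congr rfl fun n _ => ?_
    have e1 : h * ((f.eval (n : ℤ) : ℤ) : ZMod p) = (((h.val : ℤ) * f.eval (n : ℤ) : ℤ) : ZMod p) := by
      push_cast
      rw [ZMod.natCast_zmod_val]
    rw [e1, std_ee]
    congr 1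
    push_cast
    ring
  rw [hsum] at hcon
  obtain ⟨k, hk1, hk2, a, ha⟩ := hI x K _ _ hx1 hK
    (Pool.Agent.H373R2.NB.Ph_poly d f hf.le ((h.val : ℝ) / p)) (by
      have h1 : (x : ℝ) = K * (1 / K * x) := by field_simp
      rw [h1]
      exact mul_le_mul_of_nonneg_left hcon.le (by linarith))
  have hkp : k < p := by
    have h1 : (k : ℝ) < p := by linarith
    exact_mod_cast h1
  -- the numerator
  obtain ⟨z, hz⟩ : ∃ z : ℤ, z = k * ((h.val : ℤ) * (d.factorial * f.coeff d)) - a * p := ⟨_, rfl⟩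
  have hz0 : z ≠ 0 := by
    intro h0
    have h1 : (p : ℤ) ∣ k * ((h.val : ℤ) * (d.factorial * f.coeff d)) := ⟨a, by rw [h0] at hz; linarith⟩
    have hpz : Prime (p : ℤ) := Nat.prime_iff_prime_int.1 hpp
    rcases hpz.dvd_or_dvd h1 with h2 | h2
    · have h3 := Int.natCast_dvd_natCast.1 h2
      have := Nat.le_of_dvd (by omega) h3
      omega
    rcases hpz.dvd_or_dvd h2 with h3 | h3
    · have h4 := Int.natCast_dvd_natCast.1 h3
      have h5 : h.val = 0 := Nat.eq_zero_of_dvd_of_lt h4 (ZMod.val_lt h)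
      exact hh ((ZMod.val_eq_zero h).1 h5)
    rcases hpz.dvd_or_dvd h3 with h4 | h4
    · have h5 := Int.natCast_dvd_natCast.1 h4
      have := (Nat.Prime.dvd_factorial hpp).1 h5
      omega
    · apply hlc
      rw [Polynomial.leadingCoeff, hf]
      exact h4
  have hzabs : (1 : ℝ) ≤ |(z : ℝ)| := by
    have : (1 : ℤ) ≤ |z| := Int.one_le_abs hz0
    exact_mod_cast this
  have e1 : (k : ℝ) * ((h.val : ℝ) / p * ((d.factorial : ℝ) * ((f.coeff d : ℤ) : ℝ))) - a = z / p := by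
    rw [hz]
    push_cast
    field_simp
  rw [e1, abs_div, abs_of_pos hp0, div_le_div_iff₀ hp0 (by positivity)] at ha
  have h2 : (x : ℝ) ^ d ≤ c * K ^ m * p :=
    (le_mul_of_one_le_left (by positivity) hzabs).trans ha
  have h3 : (c : ℝ) * K ^ m * p < ((c + m + d + 3 : ℕ) : ℝ) * K ^ (c + m + d + 3) * p :=
    mul_lt_mul_of_pos_right hcK hp0
  linarith

/-- products -/
theorem flatK_prod (p : ℕ) [Fact p.Prime] (A B : Finset (ZMod p)) (g k : ZMod p → ZMod p) (K : ℝ) (hK : 1 ≤ K)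
    (hAB : (p : ℝ) * K ^ 2 ≤ A.card * B.card) :
    Flat p (1 / K) (A ×ˢ B) (fun z => z.1 * z.2 + g z.1 + k z.2) := by
  intro h hh
  classical
  have hp0 : (0 : ℝ) < p := by exact_mod_cast (Fact.out : p.Prime).pos
  have h1 := Pool.Agent.N825.FC.bilin (P := p) A B (fun b => h * b) (fun a => ZMod.stdAddChar (h * g a))
    (fun b => ZMod.stdAddChar (h * k b)) (fun _ => (AddChar.norm_apply _ _).le) (fun _ => (AddChar.norm_apply _ _).le) 1
    (fun y => by
      rw [card_le_one]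
      intro b hb b' hb'
      rw [mem_filter] at hb hb'
      exact mul_left_cancel₀ hh (hb.2.trans hb'.2.symm))
  have h2 : ∑ a ∈ A, ∑ b ∈ B, (ZMod.stdAddChar (h * g a) : ℂ) * (ZMod.stdAddChar (a * (h * b)) * ZMod.stdAddChar (h * k b)) =
      ∑ z ∈ A ×ˢ B, (ZMod.stdAddChar (h * (z.1 * z.2 + g z.1 + k z.2)) : ℂ) := by
    rw [sum_product]
    refine sum_congr rfl fun a _ => sum_congr rfl fun b _ => ?_
    rw [← AddChar.map_add_eq_mul, ← AddChar.map_add_eq_mul]
    congr 1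
    ring
  rw [h2, Nat.cast_one, one_mul] at h1
  rw [card_product]
  push_cast
  have hL0 : 0 < K := by linarith
  have h3 : ‖∑ z ∈ A ×ˢ B, (ZMod.stdAddChar (h * (z.1 * z.2 + g z.1 + k z.2)) : ℂ)‖ ^ 2 ≤
      (1 / K * (A.card * B.card)) ^ 2 := by
    refine h1.trans ?_
    rw [mul_pow, div_pow, one_pow]
    have h4 : (0 : ℝ) ≤ A.card * B.card := by positivity
    calc (A.card : ℝ) * (p * B.card) = (A.card * B.card) * p := by ring
      _ ≤ (A.card * B.card) * (1 / K ^ 2 * (A.card * B.card)) := by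
          apply mul_le_mul_of_nonneg_left _ h4
          rw [one_div, inv_mul_eq_div, le_div_iff₀ (by positivity)]
          exact hAB
      _ = _ := by ring
  exact (pow_le_pow_iff_left₀ (norm_nonneg _) (by positivity) (by norm_num)).1 h3

/-- cosets of subgroups -/
theorem flatK_coset (p : ℕ) [Fact p.Prime] (H : Subgroup (ZMod p)ˣ) (s : Finset (ZMod p)ˣ) (hs : ∀ u, u ∈ s ↔ u ∈ H)
    (K : ℝ) (hK : 1 ≤ K) (hcard : 5 * (p : ℝ) ^ (3 / 8 : ℝ) * K ^ 3 ≤ s.card) (x : ZMod p) (hx : x ≠ 0) :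
    Flat p (1 / K) s (fun u => x * (u : ZMod p)) := by
  intro h hh
  classical
  have hp1 : (1 : ℝ) < p := by exact_mod_cast (Fact.out : p.Prime).one_lt
  have hp0 : (0 : ℝ) < p := by linarith
  have hK0 : 0 < K := by linarith
  have hs0 : (0 : ℝ) < s.card := lt_of_lt_of_le (by positivity) hcard
  have hcard1 : 1 ≤ s.card := by exact_mod_cast hs0
  have hsp : (s.card : ℝ) ≤ p := by
    have h1 : s.card ≤ Fintype.card (ZMod p)ˣ := card_le_univ _
    rw [ZMod.card_units_eq_totient, Nat.totient_prime Fact.out] at h1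
    exact_mod_cast h1.trans (Nat.sub_le _ _)
  set S : Finset (ZMod p) := s.image fun h : (ZMod p)ˣ => (h : ZMod p) with hSdef
  have hScard : S.card = s.card := card_image_of_injective _ Units.val_injective
  have hS : ∀ x, x ∈ S ↔ ∃ h ∈ H, ((h : (ZMod p)ˣ) : ZMod p) = x := by
    intro x
    rw [hSdef, mem_image]
    simp only [hs]
  obtain ⟨b1, b2⟩ := Pool.Agent.N825.FC.sub_sum H S hS s.card hScard hcard1 (h * x) (mul_ne_zero hh hx)
  have h2 : ∑ u ∈ s, (ZMod.stdAddChar (h * (x * (u : ZMod p))) : ℂ) =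
      ∑ y ∈ S, (ZMod.stdAddChar (h * x * y) : ℂ) := by
    rw [hSdef, sum_image (fun a _ b _ hab => Units.val_injective hab)]
    refine sum_congr rfl fun u _ => ?_
    rw [mul_assoc]
  rw [h2]
  set F : ℝ := ‖∑ y ∈ S, (ZMod.stdAddChar (h * x * y) : ℂ)‖ with hF
  have hF0 : 0 ≤ F := norm_nonneg _
  rcases lt_or_ge (s.card ^ 4) (p ^ 3) with hlt | hge
  · have h3 := b2 hlt
    have h4 : F ^ 8 ≤ (1 / K * s.card) ^ 8 := by
      refine h3.trans ?_
      have e2 : ((s.card : ℝ) ^ (8 / 3 : ℝ)) ^ 2 * (s.card : ℝ) ^ (8 / 3 : ℝ) =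
          (s.card : ℝ) ^ 8 := by
        rw [← Real.rpow_natCast ((s.card : ℝ) ^ (8 / 3 : ℝ)), ← Real.rpow_mul hs0.le,
          ← Real.rpow_add hs0, ← Real.rpow_natCast (s.card : ℝ)]
        congr 1
        push_cast
        ring
      have e5 : 64 * (p : ℝ) ≤ (s.card : ℝ) ^ (8 / 3 : ℝ) / K ^ 8 := by
        rw [le_div_iff₀ (by positivity)]
        have h6 : (64 : ℝ) ≤ 5 ^ (8 / 3 : ℝ) := by
          have h7 : ((64 : ℝ)) ^ 3 ≤ ((5 : ℝ) ^ (8 / 3 : ℝ)) ^ 3 := by
            rw [← Real.rpow_natCast ((5 : ℝ) ^ (8 / 3 : ℝ)), ← Real.rpow_mul (by norm_num)]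
            norm_num
          exact (pow_le_pow_iff_left₀ (by norm_num) (by positivity) (by norm_num)).1 h7
        calc 64 * (p : ℝ) * K ^ 8 ≤ 5 ^ (8 / 3 : ℝ) * p * K ^ 8 := by
              apply mul_le_mul_of_nonneg_right _ (by positivity)
              exact mul_le_mul_of_nonneg_right h6 hp0.le
          _ = (5 * (p : ℝ) ^ (3 / 8 : ℝ) * K ^ 3) ^ (8 / 3 : ℝ) := by
              rw [Real.mul_rpow (by positivity) (by positivity), Real.mul_rpow (by positivity) (by positivity),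
                ← Real.rpow_mul hp0.le, ← Real.rpow_natCast K 3, ← Real.rpow_mul hK0.le, ← Real.rpow_natCast K 8]
              norm_num
          _ ≤ _ := Real.rpow_le_rpow (by positivity) hcard (by norm_num)
      calc (p : ℝ) * (8 * (s.card : ℝ) ^ (8 / 3 : ℝ)) ^ 2 =
          ((s.card : ℝ) ^ (8 / 3 : ℝ)) ^ 2 * (64 * p) := by ring
        _ ≤ ((s.card : ℝ) ^ (8 / 3 : ℝ)) ^ 2 *
            ((s.card : ℝ) ^ (8 / 3 : ℝ) / K ^ 8) :=
            mul_le_mul_of_nonneg_left e5 (by positivity)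
        _ = (1 / K * s.card) ^ 8 := by
            rw [mul_div_assoc', e2, mul_pow, div_pow, one_pow]
            ring
    exact (pow_le_pow_iff_left₀ hF0 (by positivity) (by norm_num)).1 h4
  · have h3 : (p : ℝ) ≤ (1 / K * s.card) ^ 2 := by
      have e2 : (p : ℝ) ^ (3 / 2 : ℝ) ≤ (s.card : ℝ) ^ 2 := by
        have h4 : ((p : ℝ) ^ 3) ≤ (s.card : ℝ) ^ 4 := by exact_mod_cast hge
        have h5 : ((p : ℝ) ^ (3 / 2 : ℝ)) ^ 2 ≤ ((s.card : ℝ) ^ 2) ^ 2 := by
          rw [← Real.rpow_natCast ((p : ℝ) ^ (3 / 2 : ℝ)), ← Real.rpow_mul hp0.le]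
          calc (p : ℝ) ^ (3 / 2 * ((2 : ℕ) : ℝ)) = (p : ℝ) ^ 3 := by
                rw [← Real.rpow_natCast]; congr 1; norm_num
            _ ≤ (s.card : ℝ) ^ 4 := h4
            _ = _ := by ring
        exact (pow_le_pow_iff_left₀ (by positivity) (by positivity) (by norm_num)).1 h5
      have e4 : K ^ 2 ≤ (p : ℝ) ^ (1 / 2 : ℝ) := by
        have h6 : K ^ 3 ≤ (p : ℝ) ^ (5 / 8 : ℝ) := by
          have h7 : (p : ℝ) ^ (3 / 8 : ℝ) * K ^ 3 ≤ (p : ℝ) ^ (3 / 8 : ℝ) * (p : ℝ) ^ (5 / 8 : ℝ) := by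
            rw [← Real.rpow_add hp0]
            norm_num
            have h8 : 0 ≤ (p : ℝ) ^ (3 / 8 : ℝ) * K ^ 3 := by positivity
            linarith
          exact le_of_mul_le_mul_left h7 (by positivity)
        have h7 : K ^ 2 = (K ^ 3) ^ (2 / 3 : ℝ) := by
          rw [← Real.rpow_natCast K 3, ← Real.rpow_mul hK0.le, ← Real.rpow_natCast K 2]
          norm_num
        rw [h7]
        calc (K ^ 3) ^ (2 / 3 : ℝ) ≤ ((p : ℝ) ^ (5 / 8 : ℝ)) ^ (2 / 3 : ℝ) :=
              Real.rpow_le_rpow (by positivity) h6 (by norm_num)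
          _ = (p : ℝ) ^ (5 / 12 : ℝ) := by
              rw [← Real.rpow_mul hp0.le]
              norm_num
          _ ≤ (p : ℝ) ^ (1 / 2 : ℝ) := Real.rpow_le_rpow_of_exponent_le hp1.le (by norm_num)
      have e6 : (p : ℝ) ^ (3 / 2 : ℝ) = p * (p : ℝ) ^ (1 / 2 : ℝ) := by
        rw [← Real.rpow_one_add' hp0.le (by norm_num)]
        norm_num
      have e5 : (p : ℝ) * K ^ 2 ≤ (s.card : ℝ) ^ 2 := by
        refine le_trans ?_ e2
        rw [e6]
        exact mul_le_mul_of_nonneg_left e4 hp0.le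
      rw [mul_pow, div_pow, one_pow, one_div, inv_mul_eq_div, le_div_iff₀ (by positivity)]
      exact e5
    exact (pow_le_pow_iff_left₀ hF0 (by positivity) (by norm_num)).1 (b1.trans h3)

/-- quotients of small integers by small primes -/
theorem flatK_quot : ∃ P₀ : ℕ, ∀ p : ℕ, P₀ ≤ p → ∀ [Fact p.Prime] (K : ℝ), 1 ≤ K → ∀ (R S : ℕ), K * Real.log p ^ 4 ≤ R →
    R < p → R ^ 2 ≤ S → Flat p (1 / K) (((Icc 1 R).filter Nat.Prime) ×ˢ range S)
      (fun z => ((z.2 : ℕ) : ZMod p) * ((z.1 : ℕ) : ZMod p)⁻¹) := by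
  obtain ⟨P₀, hP₀⟩ := eventually_atTop.mp (ev_log_ge 100)
  refine ⟨P₀, fun p hp _ K hK R S hR1 hR2 hS h hh => ?_⟩
  classical
  have hL := hP₀ p hp
  obtain ⟨L, hLd⟩ : ∃ L, L = Real.log (p : ℝ) := ⟨_, rfl⟩
  rw [← hLd] at hL hR1
  have hpp : p.Prime := Fact.out
  have hp0 : (0 : ℝ) < p := by exact_mod_cast hpp.pos
  have hL1 : 1 ≤ L := by linarith
  have hL0 : 0 < L := by linarith
  have hK0 : 0 < K := by linarith
  have hRL : 100 * 100 * K ≤ R := by
    refine le_trans ?_ hR1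
    have h2 : (100 : ℝ) * 100 ≤ L ^ 4 := by
      calc (100 : ℝ) * 100 ≤ L * L := by nlinarith
        _ ≤ L ^ 4 := by
            have : L * L = L ^ 2 := by ring
            rw [this]
            exact pow_le_pow_right₀ hL1 (by norm_num)
    nlinarith
  have hR100 : 100 ≤ R := by
    have : (100 : ℝ) ≤ R := by nlinarith
    exact_mod_cast this
  have hR0 : (0 : ℝ) < R := by exact_mod_cast (by omega : 0 < R)
  obtain ⟨Pr, hPr⟩ : ∃ Pr, Pr = (Icc 1 R).filter Nat.Prime := ⟨_, rfl⟩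
  have hpi := card_primes R hR100
  rw [← hPr] at hpi ⊢
  have hlogR : Real.log R ≤ L := by
    rw [hLd]
    exact Real.log_le_log hR0 (by exact_mod_cast hR2.le)
  have hπ : 4 * (K * L) ≤ Pr.card := by
    have h1 : (R : ℝ) / 2 ≤ Pr.card * L := hpi.trans (mul_le_mul_of_nonneg_left hlogR (Nat.cast_nonneg _))
    have h2 : K * L ^ 4 / 2 ≤ Pr.card * L := by linarith
    have h3 : 4 * (K * L) * L ≤ K * L ^ 4 / 2 := by
      have e1 : K * L ^ 4 = (K * L) * L * (L * L) := by ring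
      rw [e1]
      have h5 : 0 ≤ (K * L) * L := by positivity
      have h6 : (8 : ℝ) ≤ L * L := by nlinarith
      have h7 := mul_le_mul_of_nonneg_left h6 h5
      linarith
    exact le_of_mul_le_mul_right (h3.trans h2) hL0
  have hmemPr : ∀ r ∈ Pr, r.Prime ∧ 1 ≤ r ∧ r ≤ R := by
    intro r hr
    rw [hPr, mem_filter, mem_Icc] at hr
    exact ⟨hr.2, hr.1.1, hr.1.2⟩
  have hrne : ∀ r ∈ Pr, ((r : ℕ) : ZMod p) ≠ 0 := by
    intro r hr h0
    obtain ⟨_, h1, h2⟩ := hmemPr r hr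
    rw [ZMod.natCast_eq_zero_iff] at h0
    have := Nat.le_of_dvd (by omega) h0
    omega
  -- the frequencies
  obtain ⟨w, hw⟩ : ∃ w : ℕ → ZMod p, w = fun r => h * ((r : ℕ) : ZMod p)⁻¹ := ⟨_, rfl⟩
  have hw0 : ∀ r ∈ Pr, w r ≠ 0 := by
    intro r hr
    rw [hw]
    exact mul_ne_zero hh (inv_ne_zero (hrne r hr))
  have hwr : ∀ r ∈ Pr, ((r : ℕ) : ZMod p) * w r = h := by
    intro r hr
    rw [hw]
    simp only
    rw [mul_comm h, ← mul_assoc, mul_inv_cancel₀ (hrne r hr), one_mul]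
  obtain ⟨G, hG⟩ : ∃ G : ℕ → ℝ, G = fun r => ‖∑ j ∈ range S, (ZMod.stdAddChar (w r * (j : ZMod p)) : ℂ)‖ := ⟨_, rfl⟩
  have hsum : ‖∑ z ∈ Pr ×ˢ range S, (ZMod.stdAddChar (h * (((z.2 : ℕ) : ZMod p) * ((z.1 : ℕ) : ZMod p)⁻¹)) : ℂ)‖ ≤
      ∑ r ∈ Pr, G r := by
    rw [sum_product]
    refine (norm_sum_le _ _).trans (sum_le_sum fun r _ => ?_)
    rw [hG]
    apply le_of_eq
    simp only
    congr 1
    refine sum_congr rfl fun j _ => ?_
    rw [hw]
    congr 1
    simp only
    ring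
  have hGS : ∀ r, G r ≤ S := by
    intro r
    rw [hG]
    refine (norm_sum_le _ _).trans ?_
    simp only [AddChar.norm_apply, sum_const, card_range, nsmul_eq_mul, mul_one]
    exact le_rfl
  obtain ⟨bad, hbad⟩ : ∃ bad : Finset ℕ, bad = Pr.filter (fun r => (w r).val * (4 * R) < p ∨ (p - (w r).val) * (4 * R) < p) :=
    ⟨_, rfl⟩
  -- good primes
  have hgood : ∀ r ∈ Pr, r ∉ bad → G r ≤ 4 * R := by
    intro r hr hnb
    rw [hbad, mem_filter, not_and_or] at hnb
    rcases hnb with h1 | h1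
    · exact absurd hr h1
    push Not at h1
    obtain ⟨h2, h3⟩ := h1
    have hvlt : (w r).val < p := ZMod.val_lt _
    have hv0 : 0 < (w r).val := by
      rcases Nat.eq_zero_or_pos (w r).val with h4 | h4
      · exact absurd ((ZMod.val_eq_zero _).1 h4) (hw0 r hr)
      · exact h4
    have h4 := Pool.Agent.H442R2.KF.Inc.geom p (w r) (hw0 r hr) S
    have e1 : 1 / ((w r).val : ℝ) ≤ 4 * R / p := by
      rw [div_le_div_iff₀ (by exact_mod_cast hv0) hp0, one_mul]
      have : (p : ℝ) ≤ (w r).val * (4 * R) := by exact_mod_cast h2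
      linarith
    have e2 : 1 / ((p : ℝ) - (w r).val) ≤ 4 * R / p := by
      have h5 : (0 : ℝ) < (p : ℝ) - (w r).val := by
        have : ((w r).val : ℝ) < p := by exact_mod_cast hvlt
        linarith
      rw [div_le_div_iff₀ h5 hp0, one_mul]
      have h6 : (p : ℝ) ≤ ((p - (w r).val : ℕ) : ℝ) * (4 * R) := by exact_mod_cast h3
      rw [Nat.cast_sub hvlt.le] at h6
      linarith
    rw [hG]
    refine h4.trans ?_
    calc (p : ℝ) / 2 * (1 / ((w r).val : ℝ) + 1 / ((p : ℝ) - (w r).val)) ≤ p / 2 * (4 * R / p + 4 * R / p) := by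
          apply mul_le_mul_of_nonneg_left (add_le_add e1 e2) (by positivity)
      _ = 4 * R := by field_simp; norm_num
  -- few bad primes
  have hrep : ∀ r ∈ bad, ∃ u : ℤ, ((u : ℤ) : ZMod p) = w r ∧ |u| * (4 * R) < p := by
    intro r hr
    rw [hbad, mem_filter] at hr
    have hvlt : (w r).val < p := ZMod.val_lt _
    rcases hr.2 with h1 | h1
    · refine ⟨(w r).val, ?_, ?_⟩
      · rw [Int.cast_natCast, ZMod.natCast_zmod_val]
      · rw [Nat.abs_cast]
        exact_mod_cast h1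
    · refine ⟨(w r).val - p, ?_, ?_⟩
      · push_cast
        rw [ZMod.natCast_zmod_val, ZMod.natCast_self, sub_zero]
      · have h2 : |((w r).val : ℤ) - p| = ((p - (w r).val : ℕ) : ℤ) := by
          rw [abs_of_nonpos (by omega)]
          omega
        rw [h2]
        exact_mod_cast h1
  have hbadPr : ∀ r ∈ bad, r ∈ Pr := by
    intro r hr
    rw [hbad, mem_filter] at hr
    exact hr.1
  have hcardbad : (bad.card : ℝ) ≤ 2 * L := by
    rcases bad.eq_empty_or_nonempty with he | ⟨r₀, hr₀⟩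
    · rw [he, card_empty, Nat.cast_zero]
      linarith
    · choose! u hu1 hu2 using hrep
      obtain ⟨Nn, hNn⟩ : ∃ Nn : ℤ, Nn = r₀ * u r₀ := ⟨_, rfl⟩
      have hsmall : ∀ r ∈ bad, |(r : ℤ) * u r| * 4 < p := by
        intro r hr
        have h1 := hu2 r hr
        have h2 := (hmemPr r (hbadPr r hr)).2.2
        rw [abs_mul, Nat.abs_cast]
        have h3 : (r : ℤ) * |u r| ≤ R * |u r| := mul_le_mul_of_nonneg_right (by exact_mod_cast h2) (abs_nonneg _)
        linarith
      have hcast : ∀ r ∈ bad, (((r : ℤ) * u r : ℤ) : ZMod p) = h := by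
        intro r hr
        push_cast
        rw [hu1 r hr]
        exact hwr r (hbadPr r hr)
      have heq : ∀ r ∈ bad, (r : ℤ) * u r = Nn := by
        intro r hr
        have h1 : (p : ℤ) ∣ (r : ℤ) * u r - Nn := by
          rw [← ZMod.intCast_zmod_eq_zero_iff_dvd, hNn, Int.cast_sub, hcast r hr, hcast r₀ hr₀, sub_self]
        have h2 := hsmall r hr
        have h3 := hsmall r₀ hr₀
        rw [← hNn] at h3
        have h4 := Int.eq_zero_of_abs_lt_dvd h1 (by
          have := abs_sub ((r : ℤ) * u r) Nn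
          linarith)
        linarith
      have hNn0 : Nn ≠ 0 := by
        intro h0
        have := hcast r₀ hr₀
        rw [← hNn, h0, Int.cast_zero] at this
        exact hh this.symm
      have hsub : bad ⊆ Nn.natAbs.primeFactors := by
        intro r hr
        rw [Nat.mem_primeFactors]
        refine ⟨(hmemPr r (hbadPr r hr)).1, ?_, by omega⟩
        rw [← Int.natCast_dvd]
        exact ⟨u r, (heq r hr).symm⟩
      have h1 : 2 ^ bad.card ≤ Nn.natAbs :=
        (Nat.pow_le_pow_right (by norm_num) (card_le_card hsub)).trans (two_pow_card_primeFactors _ (by omega))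
      have h2 : Nn.natAbs ≤ p := by
        have := hsmall r₀ hr₀
        rw [← hNn] at this
        have h3 : (Nn.natAbs : ℤ) = |Nn| := Int.natCast_natAbs Nn
        have h4 : (0 : ℤ) ≤ |Nn| := abs_nonneg _
        omega
      have h3 : ((2 : ℝ)) ^ bad.card ≤ p := by exact_mod_cast h1.trans h2
      have h4 := Real.log_le_log (by positivity) h3
      rw [Real.log_pow, ← hLd] at h4
      have h5 : (0 : ℝ) ≤ bad.card := Nat.cast_nonneg _
      nlinarith [Real.log_two_gt_d9]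
  -- the sum
  have hS' : (R : ℝ) ^ 2 ≤ S := by exact_mod_cast hS
  have hS0 : (0 : ℝ) ≤ S := Nat.cast_nonneg _
  have htot : ∑ r ∈ Pr, G r ≤ bad.card * S + Pr.card * (4 * R) := by
    calc ∑ r ∈ Pr, G r ≤ ∑ r ∈ Pr, ((if r ∈ bad then (S : ℝ) else 0) + 4 * R) := by
          refine sum_le_sum fun r hr => ?_
          split_ifs with hb
          · have := hGS r
            linarith
          · have := hgood r hr hb
            linarith
      _ = bad.card * S + Pr.card * (4 * R) := by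
          rw [sum_add_distrib, ← sum_filter, sum_const, sum_const, nsmul_eq_mul, nsmul_eq_mul]
          have e3 : Pr.filter (fun r => r ∈ bad) = bad := by
            ext x
            rw [mem_filter]
            exact ⟨fun hx => hx.2, fun hx => ⟨hbadPr x hx, hx⟩⟩
          rw [e3]
  refine hsum.trans (htot.trans ?_)
  rw [card_product, card_range]
  push_cast
  have e1 : (bad.card : ℝ) * S ≤ 1 / K * (Pr.card * S) / 2 := by
    have h1 : (bad.card : ℝ) * K ≤ Pr.card / 2 := by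
      have : (bad.card : ℝ) * K ≤ 2 * L * K := mul_le_mul_of_nonneg_right hcardbad hK0.le
      have e : 4 * (K * L) = 2 * (2 * L * K) := by ring
      linarith
    have h2 : (bad.card : ℝ) ≤ Pr.card / 2 / K := by
      rw [le_div_iff₀ hK0]
      exact h1
    calc (bad.card : ℝ) * S ≤ (Pr.card / 2 / K) * S := mul_le_mul_of_nonneg_right h2 hS0
      _ = _ := by ring
  have e2 : (Pr.card : ℝ) * (4 * R) ≤ 1 / K * (Pr.card * S) / 2 := by
    have h1 : 8 * R * K ≤ S := by
      refine le_trans ?_ hS'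
      nlinarith
    have h2 : 4 * R ≤ 1 / K * S / 2 := by
      rw [one_div, inv_mul_eq_div, div_div, le_div_iff₀ (by positivity)]
      linarith
    calc (Pr.card : ℝ) * (4 * R) ≤ Pr.card * (1 / K * S / 2) := mul_le_mul_of_nonneg_left h2 (Nat.cast_nonneg _)
      _ = _ := by ring
  linarith

end Pool.Agent.N384.MQ
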