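import Pool.Agent.N384.MQ.Main
import Pool.Agent.N625.DY.I

set_option autoImplicit false

/-!
Goldbach windows near the members of families of residues with small Fourier coefficients.
-/

namespace Pool.Agent.N384.MQ

open Finset Filter
open Pool.Agent.N625.DY (ClsV)
open Pool.Agent.N193.PS (dg log_le_dg)

open Classical in
/-- the windows of Goldbach representations for all the even integers near almost all the members -/
theorem mq_gold (κ : ℤ) (hκ : κ ≠ 0) (A W U a m₀ : ℕ) (ε : ℝ) (hε : 0 < ε) (P : ℕ → Prop)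
    (hP : ∀ m : ℕ, m₀ ≤ m → 2 ∣ m → Pool.Agent.W93.PG.WinP ε A m → P m) :
    ∃ V q₀ : ℕ, ∀ q : ℕ, q₀ ≤ q → ∀ [NeZero q] (ι : Type) (s : Finset ι) (y : ι → ZMod q),
      Flat q (1 / Real.log q ^ V) s y → ∀ c : ℤ, |(c : ℝ)| ≤ q * Real.log q ^ a →
        ((s.filter fun i => ¬ ∀ m : ℤ, |(m : ℝ) - (c + κ * ((y i).val : ℕ))| ≤ Real.log q ^ W →
          0 < m → Even m → P m.toNat).card : ℝ) ≤ s.card / Real.log q ^ U := by
  obtain ⟨Q, hQ⟩ : ∃ Q : ℤ → Prop, Q = fun m => (0 < m → Even m → P m.toNat) := ⟨_, rfl⟩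
  obtain ⟨V, q₀, h0⟩ := transferq a κ hκ U (fun k y => ∀ m : ℤ, |m - y| ≤ (k : ℤ) ^ W → Q m) (fun C hC => by
    obtain ⟨k₀, h1⟩ := Pool.Agent.N625.DY.cls_gold hC.toCls 1 A W U m₀ ε hε P hP Q (fun y hy => by
      rw [hQ] at hy
      push Not at hy
      exact ⟨hy.1, hy.2.1, hy.2.2⟩)
    exact ⟨k₀, fun k hk p hp c hc => h1 k hk p hp c (by rw [Nat.cast_one, one_mul]; exact hc)⟩)
  refine ⟨V, q₀ + 1, fun q hq _ ι s y hf c hc => ?_⟩
  obtain ⟨k, g1, g2, g3, h1⟩ := h0 q (by omega)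
  refine le_trans ?_ (h1 ι s y hf c hc)
  apply Nat.cast_le.2
  apply card_le_card
  intro i hi
  rw [mem_filter] at hi ⊢
  refine ⟨hi.1, fun hcon => hi.2 ?_⟩
  intro m hm
  have h3 : |m - (c + κ * ((y i).val : ℕ))| ≤ ((k : ℕ) : ℤ) ^ W := by
    have h4 : ((|m - (c + κ * ((y i).val : ℕ))| : ℤ) : ℝ) ≤ ((((k : ℕ) : ℤ) ^ W : ℤ) : ℝ) := by
      push_cast
      refine hm.trans ?_
      exact pow_le_pow_left₀ (Real.log_natCast_nonneg q) g1 W
    exact_mod_cast h4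
  have h4 := hcon m h3
  rw [hQ] at h4
  exact h4

end Pool.Agent.N384.MQ
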