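import Pool.Agent.N384.MQ.Main
import Pool.Agent.N625.DY.M

set_option autoImplicit false

/-!
Correlations of the Möbius function with von Mangoldt functions of linear forms, the shift running through a family of
residues with small Fourier coefficients.
-/

namespace Pool.Agent.N384.MQ

open Finset Filter
open Pool.Agent.N625.DY (Cls ClsV SmallM)

open Classical in
/-- correlations of the Möbius function -/
theorem mq_mob (κ : ℤ) (hκ : κ ≠ 0) (r B T W U a : ℕ) : ∃ V q₀ : ℕ, ∀ q : ℕ, q₀ ≤ q → ∀ [NeZero q]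
    (ι : Type) (s : Finset ι) (y : ι → ZMod q), Flat q (1 / Real.log q ^ V) s y →
    ∀ c : ℤ, |(c : ℝ)| ≤ q * Real.log q ^ a →
    ∀ L : ℕ, (L : ℝ) ≤ Real.log q ^ T → ∀ (α : Fin L → ℕ) (b h : Fin L → Fin r → ℕ) (θ : Fin L → ℕ → ℂ),
      (∀ l, 1 ≤ α l) → (∀ l i, b l i ≤ q ^ B ∧ h l i ≤ q ^ B) → (∀ l n, ‖θ l n‖ ≤ 1) →
      ∀ P : ℤ → Prop, (∀ z : ℤ, (∀ y' : ℤ, |(y' : ℝ) - z| ≤ Real.log q ^ W → ∀ l, ∀ x : ℕ,
        (α l * x : ℝ) ≤ q * Real.log q ^ B →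
        ‖∑ n ∈ Icc 1 x, θ l n * (∏ i, (ArithmeticFunction.vonMangoldt (b l i * n + h l i) : ℂ)) *
          Pool.Agent.N625.DY.mu (α l * n + y')‖ ≤ q / Real.log q ^ U) → P z) →
        ((s.filter fun i => ¬ P (c + κ * ((y i).val : ℕ))).card : ℝ) ≤ s.card / Real.log q ^ U := by
  obtain ⟨a₁, ha₁⟩ : ∃ a₁, a₁ = a + B := ⟨_, rfl⟩
  obtain ⟨T', hT'⟩ : ∃ T', T' = T + 2 * r := ⟨_, rfl⟩
  obtain ⟨U', hU'⟩ : ∃ U', U' = U + a₁ + 2 := ⟨_, rfl⟩
  obtain ⟨V, k₀, h0⟩ := transferX (Θ := ℕ × (Σ L : ℕ, (Fin L → ℕ) × (Fin L → ℕ → ℂ))) (a₁ + 1) κ hκ U'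
    (fun k θ => θ.1 = k ∧ (θ.2.1 : ℝ) ≤ (k : ℝ) ^ T' ∧ (∀ l, 1 ≤ θ.2.2.1 l) ∧ (∀ l n, ‖θ.2.2.2 l n‖ ≤ (k : ℝ) ^ T'))
    (fun θ z => SmallM 1 U' W (2 ^ θ.1) θ.1 θ.2.2.1 θ.2.2.2 z) (fun C hC => by
      obtain ⟨k₁, h1⟩ := Pool.Agent.N625.DY.cls_mob hC.toCls 1 T' W U'
      refine ⟨k₁, ?_⟩
      rintro k hk ⟨k', L, α, g⟩ ⟨rfl, hL, hα, hg⟩ p hp c hc
      exact h1 _ hk p hp c (by rw [Nat.cast_one, one_mul]; exact hc) L hL α g hα hg)
  obtain ⟨k₁, h1⟩ := Pool.Agent.N625.DY.vm_bd (b := 2) le_rfl (B + 1)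
  obtain ⟨q₀, h2⟩ := scaleq a₁ V (k₀ + k₁ + 2)
  refine ⟨V + 1, q₀ + 2, fun q hq _ ι s y hf c hc L hL α b h θ hα hbh hθ P hP => ?_⟩
  obtain ⟨hL1, k, hk, g1, g2, g3, g4, g5, g6⟩ := h2 q (by omega)
  have hL0 : 0 < Real.log q := by linarith
  have hk1 : (1 : ℝ) ≤ k := by linarith
  have hk0 : (0 : ℝ) < k := by linarith
  have hq0 : (0 : ℝ) < q := by exact_mod_cast (by omega : 0 < q)
  have hqa : (q : ℝ) * Real.log q ^ a ≤ 2 ^ k := by
    refine le_trans ?_ g2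
    apply mul_le_mul_of_nonneg_left _ hq0.le
    exact pow_le_pow_right₀ hL1 (by omega)
  have hqB : (q : ℝ) * Real.log q ^ B ≤ 2 ^ k := by
    refine le_trans ?_ g2
    apply mul_le_mul_of_nonneg_left _ hq0.le
    exact pow_le_pow_right₀ hL1 (by omega)
  have hNB : q ^ B ≤ 2 ^ ((B + 1) * k) := by
    calc q ^ B ≤ (2 ^ k) ^ B := Nat.pow_le_pow_left g1 B
      _ = 2 ^ (B * k) := by rw [← pow_mul, mul_comm]
      _ ≤ 2 ^ ((B + 1) * k) := Nat.pow_le_pow_right (by norm_num) (Nat.mul_le_mul_right _ (by omega))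
  obtain ⟨g, hg⟩ : ∃ g : Fin L → ℕ → ℂ, g = fun l n => if n ≤ 2 ^ k then
    θ l n * ∏ i, (ArithmeticFunction.vonMangoldt (b l i * n + h l i) : ℂ) else 0 := ⟨_, rfl⟩
  have hgb : ∀ l n, ‖g l n‖ ≤ (k : ℝ) ^ T' := by
    intro l n
    rw [hg]
    simp only
    split_ifs with hn
    · rw [norm_mul, norm_prod]
      have e1 : ∏ i, ‖(ArithmeticFunction.vonMangoldt (b l i * n + h l i) : ℂ)‖ ≤ ∏ _i : Fin r, (k : ℝ) ^ 2 := by
        apply prod_le_prod (fun _ _ => norm_nonneg _)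
        intro i _
        rw [Complex.norm_real, Real.norm_eq_abs]
        exact h1 k (by omega) _ _ n ((hbh l i).1.trans hNB) ((hbh l i).2.trans hNB)
          (hn.trans (Nat.le_mul_of_pos_left _ (by omega)))
      rw [prod_const, card_univ, Fintype.card_fin, ← pow_mul] at e1
      calc _ ≤ 1 * (k : ℝ) ^ (2 * r) := mul_le_mul (hθ _ _) e1 (prod_nonneg fun _ _ => norm_nonneg _) zero_le_one
        _ = (k : ℝ) ^ (2 * r) := one_mul _
        _ ≤ _ := pow_le_pow_right₀ hk1 (by omega)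
    · rw [norm_zero]
      positivity
  have hLT : (L : ℝ) ≤ (k : ℝ) ^ T' :=
    hL.trans ((pow_le_pow_left₀ hL0.le g4 T).trans (pow_le_pow_right₀ hk1 (by omega)))
  have key := h0 k (by omega) ⟨k, L, α, g⟩ ⟨rfl, hLT, hα, hgb⟩ q g1 g3 ι s y (hf.mono g6) c (by
    have : |(c : ℝ)| ≤ (2 : ℝ) ^ k := hc.trans hqa
    exact_mod_cast this)
  have hfin : (s.card : ℝ) * (1 / (k : ℝ) ^ U') ≤ s.card / Real.log q ^ U := by
    rw [mul_one_div]
    apply div_le_div_of_nonneg_left (Nat.cast_nonneg _) (by positivity)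
    exact (pow_le_pow_left₀ hL0.le g4 U).trans (pow_le_pow_right₀ hk1 (by omega))
  refine le_trans (Nat.cast_le.2 (card_le_card fun i hi => ?_)) (key.trans hfin)
  rw [mem_filter] at hi ⊢
  refine ⟨hi.1, fun hcon => hi.2 (hP _ ?_)⟩
  intro y' hy' l x hx
  have hy'' : |y' - (c + κ * ((y i).val : ℕ))| ≤ ((k : ℕ) : ℤ) ^ W := by
    have h3 : ((|y' - (c + κ * ((y i).val : ℕ))| : ℤ) : ℝ) ≤ ((((k : ℕ) : ℤ) ^ W : ℤ) : ℝ) := by
      push_cast at hy' ⊢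
      exact hy'.trans (pow_le_pow_left₀ hL0.le g4 W)
    exact_mod_cast h3
  have hx2 : α l * x ≤ 1 * 2 ^ k := by
    have h3 : ((α l * x : ℕ) : ℝ) ≤ ((1 * 2 ^ k : ℕ) : ℝ) := by
      push_cast
      rw [one_mul]
      exact hx.trans hqB
    exact_mod_cast h3
  have h4 := hcon y' hy'' l x hx2
  have hx' : x ≤ 2 ^ k := (Nat.le_mul_of_pos_left x (by have := hα l; omega)).trans (hx2.trans (by rw [one_mul]))
  have h5 : ((2 ^ k : ℕ) : ℝ) / (k : ℝ) ^ U' ≤ q / Real.log q ^ U := by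
    push_cast
    calc (2 : ℝ) ^ k / (k : ℝ) ^ U' ≤ ((k : ℝ) ^ (a₁ + 1) * q) / (k : ℝ) ^ U' :=
          div_le_div_of_nonneg_right g3 (by positivity)
      _ = q / (k : ℝ) ^ (U + 1) := by
          rw [hU', show U + a₁ + 2 = (a₁ + 1) + (U + 1) by ring, pow_add (k : ℝ) (a₁ + 1) (U + 1)]
          field_simp
      _ ≤ q / Real.log q ^ U := by
          apply div_le_div_of_nonneg_left hq0.le (by positivity)
          exact (pow_le_pow_left₀ hL0.le g4 U).trans (pow_le_pow_right₀ hk1 (by omega))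
  refine le_trans (le_of_eq ?_) (h4.trans h5)
  congr 1
  apply sum_congr rfl
  intro m hm
  rw [mem_Icc] at hm
  rw [hg]
  simp only [if_pos (hm.2.trans hx')]

end Pool.Agent.N384.MQ
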