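import Pool.Agent.N384.MQ.Tl
import Pool.Agent.R501.LP1

set_option autoImplicit false

/-!
The members of families of residues with small Fourier coefficients as moduli.
-/

namespace Pool.Agent.N384.MQ

open Finset Filter
open Pool.Agent.Y958.RM (BadQ eH)
open Pool.Agent.N193.PS (dg lt_dg dg_le log_le_dg dg_le_log dg_large log_pos4 scale_x few_near log_pow_ev ev_near)

lemma Flat.pow_mono {ι : Type} {q : ℕ} [NeZero q] (hq : 1 ≤ Real.log q) {V V' : ℕ} (hV : V ≤ V') {s : Finset ι} {y : ι → ZMod q}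
    (h : Flat q (1 / Real.log q ^ V') s y) : Flat q (1 / Real.log q ^ V) s y :=
  h.mono (one_div_le_one_div_of_le (by positivity) (pow_le_pow_right₀ hq hV))

open Classical in
/-- from distributions to families, in terms of `N` -/
lemma fam_N (a U V k₀ : ℕ) : ∃ N₀ : ℕ, ∀ N : ℕ, N₀ ≤ N → ∀ q : ℕ, ∀ [NeZero q], q ≤ N → (N : ℝ) ≤ q * Real.log N ^ a →
    4 ≤ N ∧ k₀ ≤ dg N ∧ 1 ≤ Real.log q ∧ ∀ (ι : Type) (s : Finset ι) (y : ι → ZMod q), Flat q (1 / Real.log q ^ (V + 1)) s y →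
      ∀ Bad : ℕ → Prop, (∀ p, MC (a + 1) V (dg N) p →
        ∑ v ∈ range (2 ^ dg N), (if Bad v then p v else 0) ≤ 1 / (dg N : ℝ) ^ (U + 1)) →
      ((s.filter fun i => Bad (y i).val).card : ℝ) ≤ s.card / Real.log N ^ U := by
  obtain ⟨N₁, h1⟩ := scaleN a V k₀
  obtain ⟨N₂, h2⟩ := eventually_atTop.mp ((ev_log_pow (2 * a) 1).and (ev_log_ge 2))
  refine ⟨N₁ + N₂ + 4, fun N hN q _ hq1 hq2 => ?_⟩
  obtain ⟨g1, g2, g3, g4, g5⟩ := h1 N q (by omega) hq1 hq2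
  obtain ⟨g6, g7⟩ := h2 N (by omega)
  rw [one_mul] at g6
  have hq0 : (0 : ℝ) < q := by exact_mod_cast Nat.pos_of_ne_zero (NeZero.ne q)
  have hN0 : (0 : ℝ) < N := by exact_mod_cast (by omega : 0 < N)
  have hlq : 1 ≤ Real.log q := by
    have h6 : (N : ℝ) ≤ (q : ℝ) ^ 2 := by
      have h7 : (N : ℝ) ^ 2 ≤ q ^ 2 * N := by
        calc (N : ℝ) ^ 2 ≤ (q * Real.log N ^ a) ^ 2 := pow_le_pow_left₀ hN0.le hq2 2
          _ = q ^ 2 * Real.log N ^ (2 * a) := by rw [mul_pow, ← pow_mul, mul_comm a 2]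
          _ ≤ q ^ 2 * N := mul_le_mul_of_nonneg_left g6 (by positivity)
      have h8 : (N : ℝ) * N ≤ q ^ 2 * N := by linarith [sq (N : ℝ)]
      exact le_of_mul_le_mul_right h8 hN0
    have h7 := Real.log_le_log hN0 h6
    rw [Real.log_pow, Nat.cast_ofNat] at h7
    linarith
  refine ⟨g1, g2, hlq, fun ι s y hf Bad hB => ?_⟩
  rcases s.eq_empty_or_nonempty with rfl | hs
  · simp
  have hMC := dis_MC (a + 1) V (dg N) q s hs y g3 g4 (hf.mono g5)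
  have h3 := count_dis s hs y (dg N) g3 (fun v => ¬ Bad v) (1 / (dg N : ℝ) ^ (U + 1)) (by
    refine le_trans (le_of_eq ?_) (hB _ hMC)
    refine sum_congr rfl fun v _ => ?_
    by_cases hb : Bad v
    · rw [if_neg (not_not.2 hb), if_pos hb]
    · rw [if_pos hb, if_neg hb])
  refine le_trans (le_trans (Nat.cast_le.2 (card_le_card fun i hi => ?_)) h3) (scale_x N U s.card g1)
  simp only [mem_filter, not_not] at hi ⊢
  exact hi

open Classical in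
/-- few of the members are positive and small -/
theorem mq_small (κ : ℤ) (hκ : κ ≠ 0) (U a : ℕ) : ∃ V W N₀ : ℕ, ∀ N : ℕ, N₀ ≤ N → ∀ q : ℕ, ∀ [NeZero q], q ≤ N →
    (N : ℝ) ≤ q * Real.log N ^ a → ∀ (ι : Type) (s : Finset ι) (y : ι → ZMod q), Flat q (1 / Real.log q ^ V) s y →
      ∀ c₀ : ℤ, ((s.filter fun i => 0 < c₀ + κ * ((y i).val : ℕ) ∧
        ((c₀ + κ * ((y i).val : ℕ) : ℤ) : ℝ) * Real.log N ^ W < N).card : ℝ) ≤ s.card / Real.log N ^ U := by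
  obtain ⟨W, K₀, h0⟩ := MC_anti (a + 1) κ hκ 0 U
  obtain ⟨N₀, hN₀⟩ := fam_N a U (U + 4) K₀
  obtain ⟨N₁, h1⟩ := eventually_atTop.mp (ev_log_ge (2 ^ (W + 1) : ℝ))
  refine ⟨U + 4 + 1, W + 2, N₀ + N₁ + 4, fun N hN q _ hq1 hq2 ι s y hf c₀ => ?_⟩
  obtain ⟨hN4, hK, _, h2⟩ := hN₀ N (by omega) q hq1 hq2
  have hN0 : (0 : ℝ) < N := by exact_mod_cast (by omega : 0 < N)
  have hNk : N ≤ 2 ^ dg N := (lt_dg N).le
  have hL := h1 N (by omega)
  have hL1 := log_pos4 N hN4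
  have hL0 : 0 < Real.log N := by linarith
  obtain ⟨Bad, hBad⟩ : ∃ Bad : ℕ → Prop, Bad = fun v => (0 < c₀ + κ * (v : ℕ) ∧
    ((c₀ + κ * (v : ℕ) : ℤ) : ℝ) * Real.log N ^ (W + 2) < N) := ⟨_, rfl⟩
  refine le_trans (Nat.cast_le.2 (card_le_card fun i hi => ?_)) (h2 ι s y hf Bad (fun p hp => ?_))
  · simp only [mem_filter] at hi ⊢
    rw [hBad]
    exact hi
  refine h0 (dg N) hK (dg N) rfl p hp c₀ Bad (fun v hv hS => ?_)
  rw [hBad] at hS
  obtain ⟨h3, h4⟩ := hS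
  refine ⟨by omega, ?_⟩
  have h5 : ((2 ^ dg N : ℕ) : ℝ) ≤ 2 * N := by exact_mod_cast dg_le N (by omega)
  have h6 : (0 : ℝ) < ((2 ^ dg N : ℕ) : ℝ) := by positivity
  have h7 : Real.log ((2 ^ dg N : ℕ) : ℝ) ≤ 2 * Real.log N := by
    have h8 := Real.log_le_log h6 h5
    rw [Real.log_mul (by norm_num) hN0.ne'] at h8
    linarith [Real.log_two_lt_d9]
  have h9 : 0 < Real.log ((2 ^ dg N : ℕ) : ℝ) := by
    apply Real.log_pos
    have : 4 ≤ 2 ^ dg N := by omega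
    exact_mod_cast (by omega : 1 < 2 ^ dg N)
  rw [lt_div_iff₀ (by positivity)]
  have hq0 : (0 : ℝ) < ((c₀ + κ * (v : ℕ) : ℤ) : ℝ) := by exact_mod_cast h3
  calc ((c₀ + κ * (v : ℕ) : ℤ) : ℝ) * Real.log ((2 ^ dg N : ℕ) : ℝ) ^ (W + 1)
      ≤ ((c₀ + κ * (v : ℕ) : ℤ) : ℝ) * (2 * Real.log N) ^ (W + 1) := by
        apply mul_le_mul_of_nonneg_left _ hq0.le
        exact pow_le_pow_left₀ h9.le h7 _
    _ = ((c₀ + κ * (v : ℕ) : ℤ) : ℝ) * (2 ^ (W + 1) * Real.log N ^ (W + 1)) := by rw [mul_pow]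
    _ ≤ ((c₀ + κ * (v : ℕ) : ℤ) : ℝ) * (Real.log N * Real.log N ^ (W + 1)) := by gcongr
    _ = ((c₀ + κ * (v : ℕ) : ℤ) : ℝ) * Real.log N ^ (W + 2) := by ring
    _ < N := h4
    _ ≤ ((2 ^ dg N : ℕ) : ℝ) := by exact_mod_cast hNk

open Classical in
/-- Hooley's conjecture on the variance for almost all the moduli near the members -/
theorem mq_var (κ : ℤ) (hκ : κ ≠ 0) (B A U a : ℕ) (ε : ℝ) (hε : 0 < ε) (hε1 : ε ≤ 1) :
    ∃ V N₀ : ℕ, ∀ N : ℕ, N₀ ≤ N → ∀ q : ℕ, ∀ [NeZero q], q ≤ N →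
    (N : ℝ) ≤ q * Real.log N ^ a → ∀ (ι : Type) (s : Finset ι) (y : ι → ZMod q), Flat q (1 / Real.log q ^ V) s y →
      ∀ c₀ : ℤ, |c₀| ≤ B * N →
        ((s.filter fun i => (N : ℝ) ≤ ((c₀ + κ * ((y i).val : ℕ) : ℤ) : ℝ) * Real.log N ^ A ∧
          ¬ ∀ z : ℝ, (((c₀ + κ * ((y i).val : ℕ)).toNat : ℕ) : ℝ) ≤ z →
            z ≤ (((c₀ + κ * ((y i).val : ℕ)).toNat : ℕ) : ℝ) * Real.log N ^ A →
            |Pool.Agent.TH894.PV.G z (c₀ + κ * ((y i).val : ℕ)).toNat -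
              z * Real.log (((c₀ + κ * ((y i).val : ℕ)).toNat : ℕ) : ℝ)| ≤
              ε * (z * Real.log (((c₀ + κ * ((y i).val : ℕ)).toNat : ℕ) : ℝ))).card : ℝ) ≤ s.card / Real.log N ^ U := by
  obtain ⟨e₀, he₀⟩ : ∃ e₀, e₀ = B + κ.natAbs := ⟨_, rfl⟩
  obtain ⟨V, m₀, h0⟩ := MC_badq (a + 1) κ hκ e₀ (A + 1) (U + 1) ε hε hε1
  obtain ⟨N₁, h1⟩ := Pool.Agent.H491R3.AM.badq_of_log 2 e₀ A le_rfl ε
  obtain ⟨N₀, hN₀⟩ := fam_N a U V m₀
  refine ⟨V + 1, N₀ + N₁ + 4, fun N hN q _ hq1 hq2 ι s y hf c₀ hc₀ => ?_⟩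
  obtain ⟨hN4, hK, _, h2⟩ := hN₀ N (by omega) q hq1 hq2
  have hNk : N ≤ 2 ^ dg N := (lt_dg N).le
  have h3 := h2 ι s y hf (fun v => BadQ ε (A + 1) (dg N + e₀) 2 (c₀ + κ * (v : ℕ))) (fun p hp => by
    refine h0 (dg N) hK p hp c₀ (fun v hv => ?_)
    have h3 : |κ * (v : ℕ)| ≤ κ.natAbs * 2 ^ dg N := by
      rw [abs_mul, Nat.abs_cast, Int.abs_eq_natAbs]
      apply mul_le_mul_of_nonneg_left _ (Nat.cast_nonneg _)
      exact_mod_cast hv.le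
    have h4 : |c₀| ≤ B * 2 ^ dg N := by
      refine hc₀.trans (mul_le_mul_of_nonneg_left ?_ (Nat.cast_nonneg _))
      exact_mod_cast hNk
    have h5 : ((e₀ : ℕ) : ℤ) ≤ 2 ^ e₀ := by exact_mod_cast Nat.lt_two_pow_self.le
    calc |c₀ + κ * (v : ℕ)| ≤ |c₀| + |κ * (v : ℕ)| := abs_add_le _ _
      _ ≤ B * 2 ^ dg N + κ.natAbs * 2 ^ dg N := add_le_add h4 h3
      _ = ((e₀ : ℕ) : ℤ) * 2 ^ dg N := by rw [he₀]; push_cast; ring
      _ ≤ 2 ^ e₀ * 2 ^ dg N := mul_le_mul_of_nonneg_right h5 (by positivity)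
      _ = 2 ^ (dg N + e₀) := by rw [pow_add]; ring)
  refine le_trans ?_ h3
  apply Nat.cast_le.2
  apply card_le_card
  intro i hi
  rw [mem_filter] at hi ⊢
  refine ⟨hi.1, ?_⟩
  have h4 := hi.2.2
  push Not at h4
  obtain ⟨z, hz1, hz2, hz3⟩ := h4
  exact h1 N (by omega) _ hi.2.1 ⟨z, hz1, hz2, not_le.2 hz3⟩

open Classical in
/-- Hooley's conjecture on the variance for almost all the positive moduli -/
theorem mq_var' (κ : ℤ) (hκ : κ ≠ 0) (B A U a : ℕ) (ε : ℝ) (hε : 0 < ε) (hε1 : ε ≤ 1) :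
    ∃ V N₀ : ℕ, ∀ N : ℕ, N₀ ≤ N → ∀ q : ℕ, ∀ [NeZero q], q ≤ N →
    (N : ℝ) ≤ q * Real.log N ^ a → ∀ (ι : Type) (s : Finset ι) (y : ι → ZMod q), Flat q (1 / Real.log q ^ V) s y →
      ∀ c₀ : ℤ, |c₀| ≤ B * N → ∀ P : ℕ → Prop, (∀ Q : ℕ, (N : ℝ) ≤ (Q : ℝ) ^ 2 →
        (∀ z : ℝ, (Q : ℝ) ≤ z → z ≤ Q * Real.log N ^ A →
          |Pool.Agent.TH894.PV.G z Q - z * Real.log Q| ≤ ε * (z * Real.log Q)) → P Q) →
        ((s.filter fun i => ¬ (0 < c₀ + κ * ((y i).val : ℕ) →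
          P (c₀ + κ * ((y i).val : ℕ)).toNat)).card : ℝ) ≤ s.card / Real.log N ^ U := by
  obtain ⟨V₁, W, N₁, h1⟩ := mq_small κ hκ (U + 1) a
  obtain ⟨V₂, N₂, h2⟩ := mq_var κ hκ B (max A W) (U + 1) a ε hε hε1
  obtain ⟨N₃, h3⟩ := eventually_atTop.mp ((tendsto_natCast_atTop_atTop (R := ℝ)).eventually
    ((log_pow_ev (max A W) 1 (1 / 2) (by norm_num) (by norm_num)).and (Real.tendsto_log_atTop.eventually_ge_atTop (2 : ℝ))))
  obtain ⟨N₄, h4⟩ := fam_N a U 0 0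
  refine ⟨V₁ + V₂, N₁ + N₂ + N₃ + N₄ + 4, fun N hN q _ hq1 hq2 ι s y hf c₀ hc₀ P hP => ?_⟩
  have hlq := (h4 N (by omega) q hq1 hq2).2.2.1
  obtain ⟨g1, g2⟩ := h3 N (by omega)
  rw [one_mul] at g1
  have hN0 : (0 : ℝ) < N := by exact_mod_cast (by omega : 0 < N)
  have hL0 : 0 < Real.log N := by linarith
  have g1' : Real.log N ^ max A W ≤ (N : ℝ) ^ (1 / 2 : ℝ) := (pow_le_pow_left₀ hL0.le (by linarith) _).trans g1
  have e1 := h1 N (by omega) q hq1 hq2 ι s y (hf.pow_mono hlq (by omega)) c₀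
  have e2 := h2 N (by omega) q hq1 hq2 ι s y (hf.pow_mono hlq (by omega)) c₀ hc₀
  have hsub : s.filter (fun i => ¬ (0 < c₀ + κ * ((y i).val : ℕ) → P (c₀ + κ * ((y i).val : ℕ)).toNat)) ⊆
      s.filter (fun i => 0 < c₀ + κ * ((y i).val : ℕ) ∧
        ((c₀ + κ * ((y i).val : ℕ) : ℤ) : ℝ) * Real.log N ^ W < N) ∪
      s.filter (fun i => (N : ℝ) ≤ ((c₀ + κ * ((y i).val : ℕ) : ℤ) : ℝ) * Real.log N ^ (max A W) ∧
          ¬ ∀ z : ℝ, (((c₀ + κ * ((y i).val : ℕ)).toNat : ℕ) : ℝ) ≤ z →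
            z ≤ (((c₀ + κ * ((y i).val : ℕ)).toNat : ℕ) : ℝ) * Real.log N ^ (max A W) →
            |Pool.Agent.TH894.PV.G z (c₀ + κ * ((y i).val : ℕ)).toNat -
              z * Real.log (((c₀ + κ * ((y i).val : ℕ)).toNat : ℕ) : ℝ)| ≤
              ε * (z * Real.log (((c₀ + κ * ((y i).val : ℕ)).toNat : ℕ) : ℝ))) := by
    intro n hn'
    rw [mem_filter] at hn'
    obtain ⟨hn1, hn2⟩ := hn'
    push Not at hn2
    obtain ⟨hn3, hn4⟩ := hn2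
    rw [mem_union, mem_filter, mem_filter]
    by_cases hsm : ((c₀ + κ * ((y n).val : ℕ) : ℤ) : ℝ) * Real.log N ^ W < N
    · exact Or.inl ⟨hn1, hn3, hsm⟩
    · right
      push Not at hsm
      have hQ0 : (0 : ℝ) < ((c₀ + κ * ((y n).val : ℕ) : ℤ) : ℝ) := by exact_mod_cast hn3
      have h5 : (N : ℝ) ≤ ((c₀ + κ * ((y n).val : ℕ) : ℤ) : ℝ) * Real.log N ^ (max A W) :=
        hsm.trans (mul_le_mul_of_nonneg_left (pow_le_pow_right₀ (by linarith) (le_max_right _ _)) hQ0.le)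
      refine ⟨hn1, h5, fun hall => hn4 (hP _ ?_ fun z hz1 hz2 => hall z hz1 (hz2.trans ?_))⟩
      · have h6 : (((c₀ + κ * ((y n).val : ℕ)).toNat : ℕ) : ℝ) = ((c₀ + κ * ((y n).val : ℕ) : ℤ) : ℝ) := by
          exact_mod_cast Int.toNat_of_nonneg hn3.le
        rw [h6]
        have h7 : (N : ℝ) ≤ ((c₀ + κ * ((y n).val : ℕ) : ℤ) : ℝ) * (N : ℝ) ^ (1 / 2 : ℝ) :=
          h5.trans (mul_le_mul_of_nonneg_left g1' hQ0.le)
        rw [← Real.sqrt_eq_rpow] at h7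
        have hs0 : 0 < √(N : ℝ) := Real.sqrt_pos.2 hN0
        have hs2 : √(N : ℝ) * √(N : ℝ) = N := Real.mul_self_sqrt hN0.le
        have h8 : √(N : ℝ) ≤ ((c₀ + κ * ((y n).val : ℕ) : ℤ) : ℝ) := by
          by_contra hcon
          push Not at hcon
          nlinarith
        nlinarith
      · apply mul_le_mul_of_nonneg_left _ (Nat.cast_nonneg _)
        exact pow_le_pow_right₀ (by linarith) (le_max_left _ _)
  have hcard := (card_le_card hsub).trans (card_union_le _ _)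
  have hcard' : ((s.filter fun i => ¬ (0 < c₀ + κ * ((y i).val : ℕ) →
          P (c₀ + κ * ((y i).val : ℕ)).toNat)).card : ℝ) ≤ s.card / Real.log N ^ (U + 1) + s.card / Real.log N ^ (U + 1) := by
    refine le_trans ?_ (add_le_add e1 e2)
    exact_mod_cast hcard
  refine hcard'.trans ?_
  rw [← two_mul, ← mul_div_assoc, div_le_div_iff₀ (by positivity) (by positivity), pow_succ]
  have : (0 : ℝ) ≤ (s.card : ℝ) * Real.log N ^ U := by positivity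
  nlinarith

open Classical in
/-- least primes in almost all classes for almost all the positive moduli -/
theorem mq_lp (κ : ℤ) (hκ : κ ≠ 0) (B A U a : ℕ) (ε : ℝ) (hε : 0 < ε) (hε1 : ε ≤ 1) :
    ∃ V N₀ : ℕ, ∀ N : ℕ, N₀ ≤ N → ∀ q : ℕ, ∀ [NeZero q], q ≤ N →
    (N : ℝ) ≤ q * Real.log N ^ a → ∀ (ι : Type) (s : Finset ι) (y : ι → ZMod q), Flat q (1 / Real.log q ^ V) s y →
      ∀ c₀ : ℤ, |c₀| ≤ B * N →
        ((s.filter fun i => ¬ (0 < c₀ + κ * ((y i).val : ℕ) →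
          Pool.Agent.R501.LP.LpG ε A (c₀ + κ * ((y i).val : ℕ)).toNat)).card : ℝ) ≤ s.card / Real.log N ^ U := by
  obtain ⟨V, N₁, h1⟩ := mq_var' κ hκ B (A + 1) U a (ε / 4) (by linarith) (by linarith)
  obtain ⟨Q₀, h2⟩ := Pool.Agent.R501.LP.lpg_of_var A ε hε hε1
  obtain ⟨N₃, h3⟩ := eventually_atTop.mp (ev_log_ge ((2 * (B + κ.natAbs + 2)) ^ (A + 2) : ℝ))
  refine ⟨V, N₁ + (Q₀ + 2) ^ 2 + N₃ + 4, fun N hN q _ hq1 hq2 ι s y hf c₀ hc₀ => ?_⟩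
  have hN0 : (0 : ℝ) < N := by exact_mod_cast (by omega : 0 < N)
  have hg := h3 N (by omega)
  have hBk : (2 : ℝ) ≤ 2 * (B + κ.natAbs + 2) := by
    have h5 : (0 : ℝ) ≤ B := Nat.cast_nonneg _
    have h6 : (0 : ℝ) ≤ (κ.natAbs : ℝ) := Nat.cast_nonneg _
    linarith
  obtain ⟨Z, hZ⟩ : ∃ Z : ℝ, Z = 2 * (B + κ.natAbs + 2) := ⟨_, rfl⟩
  rw [← hZ] at hg hBk
  have hZ1 : 1 ≤ Z := by linarith
  have hL1 : Z ≤ Real.log N := by
    refine le_trans ?_ hg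
    exact le_self_pow₀ hZ1 (by omega)
  have hL0 : 0 < Real.log N := by linarith
  -- the upper bound of the moduli
  obtain ⟨P, hPdef⟩ : ∃ P : ℕ → Prop, P = fun Q : ℕ => ((Q : ℝ) ≤ Z * N → Pool.Agent.R501.LP.LpG ε A Q) := ⟨_, rfl⟩
  have key := h1 N (by omega) q hq1 hq2 ι s y hf c₀ hc₀ P (fun Q hQ2 hvar => by
    rw [hPdef]
    intro hQZ
    have hQ3 : Q₀ + 2 ≤ Q := by
      by_contra hcon
      push Not at hcon
      have h5 : Q ^ 2 < (Q₀ + 2) ^ 2 := Nat.pow_lt_pow_left hcon (by norm_num)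
      have h6 : N ≤ Q ^ 2 := by exact_mod_cast hQ2
      omega
    rw [← Pool.Agent.R501.LP.lpg_iff ε A Q (by omega)]
    apply h2 Q (by omega)
    intro z hz1 hz2
    apply hvar z hz1 (hz2.trans _)
    apply mul_le_mul_of_nonneg_left _ (Nat.cast_nonneg _)
    have hQ0 : (0 : ℝ) < Q := by exact_mod_cast (by omega : 0 < Q)
    have h5 : Real.log Q ≤ Z * Real.log N := by
      have h6 := Real.log_le_log hQ0 hQZ
      rw [Real.log_mul (by linarith) hN0.ne'] at h6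
      have h7 : Real.log Z ≤ Z - 1 := Real.log_le_sub_one_of_pos (by linarith)
      nlinarith
    have hQl : 0 ≤ Real.log (Q : ℝ) := Real.log_natCast_nonneg _
    calc Real.log (Q : ℝ) ^ A ≤ (Z * Real.log N) ^ A := pow_le_pow_left₀ hQl h5 A
      _ = Z ^ A * Real.log N ^ A := mul_pow _ _ _
      _ ≤ Real.log N * Real.log N ^ A := by
          apply mul_le_mul_of_nonneg_right _ (by positivity)
          refine le_trans ?_ hg
          exact pow_le_pow_right₀ hZ1 (by omega)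
      _ = Real.log N ^ (A + 1) := by ring)
  refine le_trans ?_ key
  apply Nat.cast_le.2
  apply card_le_card
  intro n hn'
  rw [mem_filter] at hn' ⊢
  refine ⟨hn'.1, fun hcon => hn'.2 fun hpos => ?_⟩
  have h5 := hcon hpos
  rw [hPdef] at h5
  apply h5
  have h6 : (((c₀ + κ * ((y n).val : ℕ)).toNat : ℕ) : ℝ) = ((c₀ + κ * ((y n).val : ℕ) : ℤ) : ℝ) := by
    exact_mod_cast Int.toNat_of_nonneg hpos.le
  rw [h6]
  have h7 : ((y n).val : ℝ) ≤ N := by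
    have h9 : (y n).val ≤ N := (ZMod.val_lt (y n)).le.trans hq1
    exact_mod_cast h9
  have h8 : ((c₀ : ℤ) : ℝ) ≤ B * N := by
    have h9 : c₀ ≤ B * (N : ℤ) := (le_abs_self c₀).trans hc₀
    exact_mod_cast h9
  have h9 : (κ : ℝ) ≤ (κ.natAbs : ℝ) := by
    rw [Nat.cast_natAbs]
    exact_mod_cast le_abs_self κ
  have h10 : (κ : ℝ) * ((y n).val : ℝ) ≤ κ.natAbs * N := by
    have h11 : (0 : ℝ) ≤ ((y n).val : ℝ) := Nat.cast_nonneg _
    calc (κ : ℝ) * ((y n).val : ℝ) ≤ κ.natAbs * ((y n).val : ℝ) := mul_le_mul_of_nonneg_right h9 h11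
      _ ≤ κ.natAbs * N := mul_le_mul_of_nonneg_left h7 (Nat.cast_nonneg _)
  push_cast
  rw [hZ]
  have hB0 : (0 : ℝ) ≤ B := Nat.cast_nonneg _
  have hk0 : (0 : ℝ) ≤ (κ.natAbs : ℝ) := Nat.cast_nonneg _
  nlinarith [mul_nonneg hB0 hN0.le, mul_nonneg hk0 hN0.le]

open Classical in
lemma near_fam {ι : Type} (s : Finset ι) (N W U : ℕ) (hL : 3 ≤ Real.log N) (hW : Real.log N ^ W ≤ N) (v : ι → ℤ) (R : ℤ → Prop)
    (h : ∀ t : ℤ, |t| ≤ N → ((s.filter (fun n => ¬ R (v n + t))).card : ℝ) ≤ s.card / Real.log N ^ (U + W + 1)) :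
    ((s.filter (fun n => ¬ ∀ m : ℤ, ((|m - v n| : ℤ) : ℝ) ≤ Real.log N ^ W → R m)).card : ℝ) ≤
      s.card / Real.log N ^ U := by
  obtain ⟨T, hT⟩ : ∃ T : ℕ, T = ⌊Real.log N ^ W⌋₊ := ⟨_, rfl⟩
  have hL0 : 0 < Real.log N := by linarith
  have hpW : 1 ≤ Real.log N ^ W := one_le_pow₀ (by linarith)
  have hTr : (T : ℝ) ≤ Real.log N ^ W := by
    rw [hT]
    exact Nat.floor_le (by positivity)
  have hTN : T ≤ N := by
    have : (T : ℝ) ≤ N := hTr.trans hW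
    exact_mod_cast this
  have hsub : s.filter (fun n => ¬ ∀ m : ℤ, ((|m - v n| : ℤ) : ℝ) ≤ Real.log N ^ W → R m) ⊆
      (Icc (-(T : ℤ)) T).biUnion fun t => s.filter (fun n => ¬ R (v n + t)) := by
    intro n hn
    rw [mem_filter] at hn
    obtain ⟨hn1, hn2⟩ := hn
    push Not at hn2
    obtain ⟨m, hm1, hm2⟩ := hn2
    rw [mem_biUnion]
    refine ⟨m - v n, ?_, ?_⟩
    · rw [mem_Icc, ← abs_le]
      have h1 : (((m - v n).natAbs : ℕ) : ℝ) ≤ Real.log N ^ W := by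
        rw [Nat.cast_natAbs]
        exact hm1
      have h2 : (m - v n).natAbs ≤ T := by
        rw [hT]
        exact Nat.le_floor h1
      rw [Int.abs_eq_natAbs]
      exact_mod_cast h2
    · rw [mem_filter]
      refine ⟨hn1, ?_⟩
      rw [show v n + (m - v n) = m by ring]
      exact hm2
  have hcard := (card_le_card hsub).trans card_biUnion_le
  have hcard' : ((s.filter (fun n => ¬ ∀ m : ℤ, ((|m - v n| : ℤ) : ℝ) ≤ Real.log N ^ W → R m)).card : ℝ) ≤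
      ∑ t ∈ Icc (-(T : ℤ)) T, ((s.filter (fun n => ¬ R (v n + t))).card : ℝ) := by exact_mod_cast hcard
  refine hcard'.trans ?_
  calc ∑ t ∈ Icc (-(T : ℤ)) T, ((s.filter (fun n => ¬ R (v n + t))).card : ℝ)
      ≤ ∑ _t ∈ Icc (-(T : ℤ)) T, (s.card / Real.log N ^ (U + W + 1) : ℝ) := by
        apply sum_le_sum
        intro t ht
        rw [mem_Icc, ← abs_le] at ht
        exact h t (ht.trans (by exact_mod_cast hTN))
    _ = (2 * T + 1 : ℝ) * (s.card / Real.log N ^ (U + W + 1)) := by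
        rw [sum_const, Int.card_Icc, nsmul_eq_mul]
        congr 1
        have : ((T : ℤ) + 1 - -(T : ℤ)).toNat = 2 * T + 1 := by omega
        rw [this]
        push_cast
        ring
    _ ≤ (3 * Real.log N ^ W) * (s.card / Real.log N ^ (U + W + 1)) := by
        apply mul_le_mul_of_nonneg_right _ (by positivity)
        linarith
    _ ≤ (Real.log N * Real.log N ^ W) * (s.card / Real.log N ^ (U + W + 1)) := by
        apply mul_le_mul_of_nonneg_right _ (by positivity)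
        exact mul_le_mul_of_nonneg_right hL (by positivity)
    _ = s.card / Real.log N ^ U := by
        rw [pow_add, pow_add, pow_one]
        field_simp

open Classical in
/-- Hooley's conjecture on the variance for all the positive moduli near almost all the members -/
theorem mq_var_near (κ : ℤ) (hκ : κ ≠ 0) (B A U W a : ℕ) (ε : ℝ) (hε : 0 < ε) (hε1 : ε ≤ 1) :
    ∃ V N₀ : ℕ, ∀ N : ℕ, N₀ ≤ N → ∀ q : ℕ, ∀ [NeZero q], q ≤ N →
    (N : ℝ) ≤ q * Real.log N ^ a → ∀ (ι : Type) (s : Finset ι) (y : ι → ZMod q), Flat q (1 / Real.log q ^ V) s y →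
      ∀ c₀ : ℤ, |c₀| ≤ B * N → ∀ P : ℕ → Prop, (∀ Q : ℕ, (N : ℝ) ≤ (Q : ℝ) ^ 2 →
        (∀ z : ℝ, (Q : ℝ) ≤ z → z ≤ Q * Real.log N ^ A →
          |Pool.Agent.TH894.PV.G z Q - z * Real.log Q| ≤ ε * (z * Real.log Q)) → P Q) →
        ((s.filter fun i => ¬ ∀ m : ℤ, ((|m - (c₀ + κ * ((y i).val : ℕ))| : ℤ) : ℝ) ≤ Real.log N ^ W →
          0 < m → P m.toNat).card : ℝ) ≤ s.card / Real.log N ^ U := by
  obtain ⟨V, N₁, h1⟩ := mq_var' κ hκ (B + 1) A (U + W + 1) a ε hε hε1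
  obtain ⟨N₂, h2⟩ := ev_near W
  refine ⟨V, N₁ + N₂, fun N hN q _ hq1 hq2 ι s y hf c₀ hc₀ P hP => ?_⟩
  obtain ⟨g1, g2⟩ := h2 N (by omega)
  obtain ⟨R, hR⟩ : ∃ R : ℤ → Prop, R = fun m => (0 < m → P m.toNat) := ⟨_, rfl⟩
  have key := near_fam s N W U g1 g2 (fun i => c₀ + κ * ((y i).val : ℕ)) R (fun t ht => by
    have h3 := h1 N (by omega) q hq1 hq2 ι s y hf (c₀ + t) (by
      push_cast
      calc |c₀ + t| ≤ |c₀| + |t| := abs_add_le _ _
        _ ≤ B * N + N := add_le_add hc₀ ht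
        _ = (B + 1) * N := by ring) P hP
    refine le_trans (Nat.cast_le.2 (card_le_card fun n hn => ?_)) h3
    rw [mem_filter] at hn ⊢
    refine ⟨hn.1, fun hcon => hn.2 ?_⟩
    rw [hR, show c₀ + κ * (((y n).val : ℕ) : ℤ) + t = c₀ + t + κ * (((y n).val : ℕ) : ℤ) by ring]
    exact hcon)
  refine le_trans (Nat.cast_le.2 (card_le_card fun n hn => ?_)) key
  rw [mem_filter] at hn ⊢
  refine ⟨hn.1, fun hcon => hn.2 ?_⟩
  rw [hR] at hcon
  exact hcon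

open Classical in
/-- least primes in almost all classes for all the positive moduli near almost all the members -/
theorem mq_lp_near (κ : ℤ) (hκ : κ ≠ 0) (B A U W a : ℕ) (ε : ℝ) (hε : 0 < ε) (hε1 : ε ≤ 1) :
    ∃ V N₀ : ℕ, ∀ N : ℕ, N₀ ≤ N → ∀ q : ℕ, ∀ [NeZero q], q ≤ N →
    (N : ℝ) ≤ q * Real.log N ^ a → ∀ (ι : Type) (s : Finset ι) (y : ι → ZMod q), Flat q (1 / Real.log q ^ V) s y →
      ∀ c₀ : ℤ, |c₀| ≤ B * N →
        ((s.filter fun i => ¬ ∀ m : ℤ, ((|m - (c₀ + κ * ((y i).val : ℕ))| : ℤ) : ℝ) ≤ Real.log N ^ W →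
          0 < m → Pool.Agent.R501.LP.LpG ε A m.toNat).card : ℝ) ≤ s.card / Real.log N ^ U := by
  obtain ⟨V, N₁, h1⟩ := mq_lp κ hκ (B + 1) A (U + W + 1) a ε hε hε1
  obtain ⟨N₂, h2⟩ := ev_near W
  refine ⟨V, N₁ + N₂, fun N hN q _ hq1 hq2 ι s y hf c₀ hc₀ => ?_⟩
  obtain ⟨g1, g2⟩ := h2 N (by omega)
  obtain ⟨R, hR⟩ : ∃ R : ℤ → Prop, R = fun m => (0 < m → Pool.Agent.R501.LP.LpG ε A m.toNat) := ⟨_, rfl⟩
  have key := near_fam s N W U g1 g2 (fun i => c₀ + κ * ((y i).val : ℕ)) R (fun t ht => by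
    have h3 := h1 N (by omega) q hq1 hq2 ι s y hf (c₀ + t) (by
      push_cast
      calc |c₀ + t| ≤ |c₀| + |t| := abs_add_le _ _
        _ ≤ B * N + N := add_le_add hc₀ ht
        _ = (B + 1) * N := by ring)
    refine le_trans (Nat.cast_le.2 (card_le_card fun n hn => ?_)) h3
    rw [mem_filter] at hn ⊢
    refine ⟨hn.1, fun hcon => hn.2 ?_⟩
    rw [hR, show c₀ + κ * (((y n).val : ℕ) : ℤ) + t = c₀ + t + κ * (((y n).val : ℕ) : ℤ) by ring]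
    exact hcon)
  refine le_trans (Nat.cast_le.2 (card_le_card fun n hn => ?_)) key
  rw [mem_filter] at hn ⊢
  refine ⟨hn.1, fun hcon => hn.2 ?_⟩
  rw [hR] at hcon
  exact hcon

/-- the choice of `N` -/
lemma chooseN (a : ℕ) : ∃ q₀ : ℕ, ∀ q : ℕ, q₀ ≤ q → ∃ N : ℕ, q ≤ N ∧ (q : ℝ) * Real.log q ^ a ≤ N ∧
    (N : ℝ) ≤ q * Real.log N ^ (a + 1) ∧ 1 ≤ Real.log q ∧ Real.log q ≤ Real.log N := by
  obtain ⟨q₀, h0⟩ := eventually_atTop.mp (ev_log_ge 2)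
  refine ⟨q₀ + 1, fun q hq => ⟨⌈(q : ℝ) * Real.log q ^ a⌉₊, ?_⟩⟩
  have hl := h0 q (by omega)
  have hq0 : (0 : ℝ) < q := by exact_mod_cast (by omega : 0 < q)
  have hq1 : (1 : ℝ) ≤ q := by exact_mod_cast (by omega : 1 ≤ q)
  have hp1 : 1 ≤ Real.log q ^ a := one_le_pow₀ (by linarith)
  obtain ⟨N, hN⟩ : ∃ N : ℕ, N = ⌈(q : ℝ) * Real.log q ^ a⌉₊ := ⟨_, rfl⟩
  rw [← hN]
  have h1 : (q : ℝ) * Real.log q ^ a ≤ N := by rw [hN]; exact Nat.le_ceil _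
  have h2 : (N : ℝ) < q * Real.log q ^ a + 1 := by rw [hN]; exact Nat.ceil_lt_add_one (by positivity)
  have h3 : (q : ℝ) ≤ N := (le_mul_of_one_le_right hq0.le hp1).trans h1
  have h4 : Real.log q ≤ Real.log N := Real.log_le_log hq0 h3
  refine ⟨by exact_mod_cast h3, h1, ?_, by linarith, h4⟩
  have h5 : (1 : ℝ) ≤ (q : ℝ) * Real.log q ^ a := one_le_mul_of_one_le_of_one_le hq1 hp1
  calc (N : ℝ) ≤ 2 * (q * Real.log q ^ a) := by linarith
    _ ≤ Real.log q * (q * Real.log q ^ a) := mul_le_mul_of_nonneg_right hl (by positivity)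
    _ = q * Real.log q ^ (a + 1) := by rw [pow_succ]; ring
    _ ≤ q * Real.log N ^ (a + 1) := by
        apply mul_le_mul_of_nonneg_left _ hq0.le
        exact pow_le_pow_left₀ (by linarith) h4 _

open Classical in
/-- Hooley's conjecture on the variance for all the positive moduli near almost all the members, in terms of `M` -/
theorem mq_varM (κ : ℤ) (hκ : κ ≠ 0) (A U W a : ℕ) (ε : ℝ) (hε : 0 < ε) (hε1 : ε ≤ 1) :
    ∃ V M₀ : ℕ, ∀ M : ℕ, M₀ ≤ M → ∀ [NeZero M] (ι : Type) (s : Finset ι) (y : ι → ZMod M), Flat M (1 / Real.log M ^ V) s y →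
      ∀ c₀ : ℤ, |(c₀ : ℝ)| ≤ M * Real.log M ^ a →
        ((s.filter fun i => ¬ ∀ m : ℤ, |(m : ℝ) - (c₀ + κ * ((y i).val : ℕ))| ≤ Real.log M ^ W →
          0 < m → ∀ z : ℝ, ((m.toNat : ℕ) : ℝ) ≤ z → z ≤ m.toNat * Real.log M ^ A →
          |Pool.Agent.TH894.PV.G z m.toNat - z * Real.log m.toNat| ≤ ε * (z * Real.log m.toNat)).card : ℝ) ≤
          s.card / Real.log M ^ U := by
  obtain ⟨V, N₁, h1⟩ := mq_var_near κ hκ 1 A U W (a + 1) ε hε hε1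
  obtain ⟨M₁, h2⟩ := chooseN a
  refine ⟨V, N₁ + M₁, fun M hM _ ι s y hf c₀ hc₀ => ?_⟩
  obtain ⟨N, g1, g2, g3, g4, g5⟩ := h2 M (by omega)
  have hl0 : 0 < Real.log M := by linarith
  have key := h1 N (by omega) M g1 g3 ι s y hf c₀ (by
    have h3 : |(c₀ : ℝ)| ≤ N := hc₀.trans g2
    rw [Nat.cast_one, one_mul]
    exact_mod_cast h3) (fun m => ∀ z : ℝ, (m : ℝ) ≤ z → z ≤ m * Real.log M ^ A →
          |Pool.Agent.TH894.PV.G z m - z * Real.log m| ≤ ε * (z * Real.log m)) (fun Q _ hQ z hz1 hz2 =>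
    hQ z hz1 (hz2.trans (mul_le_mul_of_nonneg_left (pow_le_pow_left₀ hl0.le g5 A) (Nat.cast_nonneg _))))
  refine le_trans ?_ (key.trans ?_)
  · refine Nat.cast_le.2 (card_le_card fun n hn => ?_)
    rw [mem_filter] at hn ⊢
    refine ⟨hn.1, fun hcon => hn.2 fun m hm hm0 => hcon m ?_ hm0⟩
    push_cast
    exact hm.trans (pow_le_pow_left₀ hl0.le g5 W)
  · apply div_le_div_of_nonneg_left (Nat.cast_nonneg _) (by positivity)
    exact pow_le_pow_left₀ hl0.le g5 U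

open Classical in
/-- least primes in almost all classes for all the positive moduli near almost all the members, in terms of `M` -/
theorem mq_lpM (κ : ℤ) (hκ : κ ≠ 0) (A U W a : ℕ) (ε : ℝ) (hε : 0 < ε) (hε1 : ε ≤ 1) :
    ∃ V M₀ : ℕ, ∀ M : ℕ, M₀ ≤ M → ∀ [NeZero M] (ι : Type) (s : Finset ι) (y : ι → ZMod M), Flat M (1 / Real.log M ^ V) s y →
      ∀ c₀ : ℤ, |(c₀ : ℝ)| ≤ M * Real.log M ^ a →
        ((s.filter fun i => ¬ ∀ m : ℤ, |(m : ℝ) - (c₀ + κ * ((y i).val : ℕ))| ≤ Real.log M ^ W →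
          0 < m → Pool.Agent.R501.LP.LpG ε A m.toNat).card : ℝ) ≤ s.card / Real.log M ^ U := by
  obtain ⟨V, N₁, h1⟩ := mq_lp_near κ hκ 1 A U W (a + 1) ε hε hε1
  obtain ⟨M₁, h2⟩ := chooseN a
  refine ⟨V, N₁ + M₁, fun M hM _ ι s y hf c₀ hc₀ => ?_⟩
  obtain ⟨N, g1, g2, g3, g4, g5⟩ := h2 M (by omega)
  have hl0 : 0 < Real.log M := by linarith
  have key := h1 N (by omega) M g1 g3 ι s y hf c₀ (by
    have h3 : |(c₀ : ℝ)| ≤ N := hc₀.trans g2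
    rw [Nat.cast_one, one_mul]
    exact_mod_cast h3)
  refine le_trans ?_ (key.trans ?_)
  · refine Nat.cast_le.2 (card_le_card fun n hn => ?_)
    rw [mem_filter] at hn ⊢
    refine ⟨hn.1, fun hcon => hn.2 fun m hm hm0 => hcon m ?_ hm0⟩
    push_cast
    exact hm.trans (pow_le_pow_left₀ hl0.le g5 W)
  · apply div_le_div_of_nonneg_left (Nat.cast_nonneg _) (by positivity)
    exact pow_le_pow_left₀ hl0.le g5 U

end Pool.Agent.N384.MQ
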