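import Pool.Agent.N384.MQ.Main

set_option autoImplicit false

/-!
Prime pairs with differences near the members of families of residues with small Fourier coefficients.
-/

namespace Pool.Agent.N384.MQ

open Finset Filter
open Pool.Agent.N625.DY (ClsV)

lemma card_filter_mono' {ι : Type} (s : Finset ι) (P Q : ι → Prop) {_ : DecidablePred P} {_ : DecidablePred Q}
    (h : ∀ i ∈ s, P i → Q i) : ((s.filter P).card : ℝ) ≤ ((s.filter Q).card : ℝ) := by
  apply Nat.cast_le.2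
  apply card_le_card
  intro i hi
  rw [mem_filter] at hi ⊢
  exact ⟨hi.1, h i hi.1 hi.2⟩

open Classical in
/-- prime pairs in progressions for the differences above almost all the members -/
theorem mq_pairs (κ : ℤ) (hκ : κ ≠ 0) (A₁ A₂ C U W a : ℕ) : ∃ V M₀ : ℕ, ∀ M : ℕ, M₀ ≤ M → ∀ [NeZero M],
    ∀ X : ℕ, M ≤ X → (M : ℝ) * Real.log X ^ (a + C + 8) ≤ X → (X : ℝ) ≤ M * Real.log X ^ W →
    ∀ (ι : Type) (s : Finset ι) (y : ι → ZMod M), Flat M (1 / Real.log M ^ V) s y →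
    ∀ c : ℤ, |(c : ℝ)| ≤ M * Real.log M ^ a → ∀ P : ℤ → Prop,
      (∀ m : ℤ, 0 < m → Pool.Agent.W93.PP.GoodD A₁ A₂ C X m.toNat → P m) →
      ((s.filter fun i => ¬ (0 < c + κ * ((y i).val : ℕ) → P (c + κ * ((y i).val : ℕ)))).card : ℝ) ≤
        s.card / Real.log M ^ U := by
  obtain ⟨V, k₀, h0⟩ := transferX (a + 1) κ hκ U
    (fun k (X : ℕ) => 2 ^ k ≤ X ∧ (2 : ℝ) ^ k * Real.log X ^ (C + 6) ≤ X ∧ (X : ℝ) ≤ (2 : ℝ) ^ k * Real.log X ^ W)
    (fun (X : ℕ) y => 0 < y → Pool.Agent.W93.PP.GoodD A₁ A₂ C X y.toNat) (fun Cl hC => by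
      obtain ⟨k₀, h1⟩ := Pool.Agent.N625.DY.cls_pairs hC 1 U A₁ A₂ C W
      refine ⟨k₀, fun k hk X hX p hp c hc => ?_⟩
      exact h1 k hk X hX.1 (by push_cast; exact hX.2.1) (by push_cast; exact hX.2.2) p hp c
        (by rw [Nat.cast_one, one_mul]; exact hc) (fun y => 0 < y → Pool.Agent.W93.PP.GoodD A₁ A₂ C X y.toNat) (fun y hy => by
          push Not at hy
          exact hy))
  obtain ⟨q₀, h1⟩ := scaleq a V k₀
  obtain ⟨M₁, h2⟩ := eventually_atTop.mp (ev_log_ge ((3 : ℝ) ^ (a + 1)))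
  refine ⟨V + 1, q₀ + M₁ + 3, fun M hM _ X hMX hX1 hX2 ι s y hf c hc P hP => ?_⟩
  obtain ⟨hL1, k, hk, g1, g2, g3, g4, g5, g6⟩ := h1 M (by omega)
  have hM0 : (0 : ℝ) < M := by exact_mod_cast (by omega : 0 < M)
  have h3a := h2 M (by omega)
  have hL0 : 0 < Real.log M := by linarith
  have hMXr : (M : ℝ) ≤ X := by exact_mod_cast hMX
  have hlog : Real.log M ≤ Real.log X := Real.log_le_log hM0 hMXr
  have hLX1 : 1 ≤ Real.log X := by linarith
  have hLX0 : 0 < Real.log X := by linarith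
  -- the size of `X`
  have hX3 : (2 : ℝ) ^ k * Real.log X ^ (C + 6) ≤ X := by
    refine le_trans ?_ hX1
    calc (2 : ℝ) ^ k * Real.log X ^ (C + 6) ≤ ((k : ℝ) ^ (a + 1) * M) * Real.log X ^ (C + 6) :=
          mul_le_mul_of_nonneg_right g3 (by positivity)
      _ ≤ ((3 * Real.log X) ^ (a + 1) * M) * Real.log X ^ (C + 6) := by
          have : (k : ℝ) ≤ 3 * Real.log X := by linarith
          gcongr
      _ = M * (3 ^ (a + 1) * Real.log X ^ (a + 1) * Real.log X ^ (C + 6)) := by rw [mul_pow]; ring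
      _ ≤ M * (Real.log X * Real.log X ^ (a + 1) * Real.log X ^ (C + 6)) := by
          have : (3 : ℝ) ^ (a + 1) ≤ Real.log X := by linarith
          gcongr
      _ = M * Real.log X ^ (a + C + 8) := by
          congr 1
          rw [← pow_succ', ← pow_add]
          congr 1
          ring
  have hX4 : (X : ℝ) ≤ (2 : ℝ) ^ k * Real.log X ^ W := by
    refine hX2.trans (mul_le_mul_of_nonneg_right ?_ (by positivity))
    exact_mod_cast g1
  have hX5 : 2 ^ k ≤ X := by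
    have h1 : (1 : ℝ) ≤ Real.log X ^ (C + 6) := one_le_pow₀ hLX1
    have h2 : (2 : ℝ) ^ k ≤ X := by
      refine le_trans ?_ hX3
      exact le_mul_of_one_le_right (by positivity) h1
    exact_mod_cast h2
  have h3 := h0 k hk X ⟨hX5, hX3, hX4⟩ M g1 g3 ι s y (hf.mono g6) c (by
    have : |(c : ℝ)| ≤ (2 : ℝ) ^ k := hc.trans g2
    exact_mod_cast this)
  refine le_trans ?_ (h3.trans ?_)
  · exact card_filter_mono' s _ _ (fun i _ hn2 hcon => hn2 fun hpos => hP _ hpos (hcon hpos))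
  · rw [mul_one_div]
    apply div_le_div_of_nonneg_left (Nat.cast_nonneg _) (by positivity)
    exact pow_le_pow_left₀ (by linarith) g4 U

end Pool.Agent.N384.MQ
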